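import Pool.Agent.H59.RR.Main

set_option autoImplicit false

/-! The total number of exponents. -/

namespace Pool.Agent.H59.RR

open Finset Pool.Agent.H59.PF

/-- the number of exponents in the rows of the first triangle -/
def nd (d : ℕ) : ℕ := ∑ b ∈ range ((d + 2) / 3), (3 * d - 9 * b)

theorem nd_aux (s : ℕ) (n : ℕ) : 2 * ∑ b ∈ range (n + 1), (9 * n + 3 * s - 9 * b) = (n + 1) * (9 * n + 6 * s) := by
  have h1 : ∑ b ∈ range (n + 1), (9 * n + 3 * s - 9 * b) = ∑ b ∈ range (n + 1), (9 * b + 3 * s) := by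
    rw [← Finset.sum_range_reflect]
    refine sum_congr rfl fun b hb => ?_
    rw [mem_range] at hb
    omega
  rw [h1, sum_add_distrib, ← mul_sum, sum_const, card_range, smul_eq_mul, mul_add]
  have h2 := Finset.sum_range_id_mul_two (n + 1)
  rw [Nat.add_sub_cancel] at h2
  have h3 : 2 * (9 * ∑ i ∈ range (n + 1), i) = 9 * ((∑ i ∈ range (n + 1), i) * 2) := by ring
  rw [h3, h2]
  ring

theorem nd_eq (d : ℕ) : nd d + (if 3 ∣ d then 1 else 0) = (d + 2).choose 2 := by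
  have h5 : (d + 2).choose 2 * 2 = (d + 2) * (d + 1) := by
    rw [Nat.choose_two_right, Nat.div_mul_cancel (Nat.even_mul_pred_self _).two_dvd]
    rfl
  have h6 : 2 * nd d + 2 * (if 3 ∣ d then 1 else 0) = (d + 2) * (d + 1) := by
    obtain ⟨n, hn⟩ : ∃ n, n = d / 3 := ⟨_, rfl⟩
    have h7 : d = 3 * n ∨ d = 3 * n + 1 ∨ d = 3 * n + 2 := by omega
    unfold nd
    rcases h7 with h7 | h7 | h7
    · rw [h7, if_pos (dvd_mul_right _ _)]
      rcases Nat.eq_zero_or_pos n with h0 | h0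
      · subst h0; simp
      · obtain ⟨k, rfl⟩ : ∃ k, n = k + 1 := ⟨n - 1, by omega⟩
        have e1 : (3 * (k + 1) + 2) / 3 = k + 1 := by omega
        have e2 := nd_aux 3 k
        rw [e1]
        have e3 : ∑ b ∈ range (k + 1), (3 * (3 * (k + 1)) - 9 * b) = ∑ b ∈ range (k + 1), (9 * k + 3 * 3 - 9 * b) :=
          sum_congr rfl fun b _ => by congr 1; ring
        rw [e3, e2]
        ring
    · have e1 : (3 * n + 1 + 2) / 3 = n + 1 := by omega
      have e2 := nd_aux 1 n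
      rw [h7, if_neg (by omega), e1]
      have e3 : ∑ b ∈ range (n + 1), (3 * (3 * n + 1) - 9 * b) = ∑ b ∈ range (n + 1), (9 * n + 3 * 1 - 9 * b) :=
        sum_congr rfl fun b _ => by congr 1; ring
      rw [e3, e2]
      ring
    · have e1 : (3 * n + 2 + 2) / 3 = n + 1 := by omega
      have e2 := nd_aux 2 n
      rw [h7, if_neg (by omega), e1]
      have e3 : ∑ b ∈ range (n + 1), (3 * (3 * n + 2) - 9 * b) = ∑ b ∈ range (n + 1), (9 * n + 3 * 2 - 9 * b) :=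
        sum_congr rfl fun b _ => by congr 1; ring
      rw [e3, e2]
      ring
  omega

section
variable {f h e q : ℕ} {K σ : ℝ}

/-- the exponents of the first triangle, without the apex -/
noncomputable def TF (K : ℝ) (d : ℕ) : Finset (ℤ × ℤ) :=
  (range ((d + 2) / 3)).biUnion fun b => (Finset.Icc ⌈(K - 9) * ((d : ℝ) / 3 - b)⌉
    ⌊K * ((d : ℝ) / 3 - b)⌋).image fun t => (t, (b : ℤ))

theorem card_TF (P : Pr f h e q K σ) (d : ℕ) : (TF K d).card ≤ nd d := by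
  unfold TF nd
  refine card_biUnion_le.trans (sum_le_sum fun b hb => ?_)
  rw [mem_range] at hb
  refine card_image_le.trans ?_
  rw [Int.card_Icc]
  have h1 : 3 * b < d := by omega
  have hu : (0 : ℝ) < (d : ℝ) / 3 - b := by
    have : (3 : ℝ) * b < d := by exact_mod_cast h1
    linarith
  have h2 : Irrational ((K - 9) * ((d : ℝ) / 3 - b)) := by
    have e1 : (K - 9) * ((d : ℝ) / 3 - b) = (K - ((9 : ℕ) : ℝ)) * (((d : ℤ) - 3 * b : ℤ) : ℝ) / ((3 : ℕ) : ℝ) := by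
      push_cast; ring
    rw [e1]
    refine ((P.irr.sub_natCast 9).mul_intCast (by omega)).div_natCast (by norm_num)
  have h3 : ⌊K * ((d : ℝ) / 3 - b)⌋ = ⌊(K - 9) * ((d : ℝ) / 3 - b)⌋ + ((3 * d - 9 * b : ℕ) : ℤ) := by
    rw [← Int.floor_add_natCast]
    congr 1
    rw [Nat.cast_sub (by omega)]
    push_cast
    ring
  have h4 : ⌊(K - 9) * ((d : ℝ) / 3 - b)⌋ < ⌈(K - 9) * ((d : ℝ) / 3 - b)⌉ := by
    by_contra hcon
    have g1 := Int.le_ceil ((K - 9) * ((d : ℝ) / 3 - b))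
    have g2 := Int.floor_le ((K - 9) * ((d : ℝ) / 3 - b))
    have g3 : ((⌈(K - 9) * ((d : ℝ) / 3 - b)⌉ : ℤ) : ℝ) ≤ (⌊(K - 9) * ((d : ℝ) / 3 - b)⌋ : ℤ) := by
      exact_mod_cast not_lt.1 hcon
    have g4 : (K - 9) * ((d : ℝ) / 3 - b) = ((⌊(K - 9) * ((d : ℝ) / 3 - b)⌋ : ℤ) : ℝ) :=
      le_antisymm (g1.trans g3) g2
    rw [g4] at h2
    exact Int.not_irrational _ h2
  omega

theorem t0_TF {d : ℕ} (hK : 9 < K) {p : ℤ × ℤ} (hp : p ∈ T0 K d) (h1 : 1 ≤ p.1) : p ∈ TF K d := by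
  obtain ⟨t, b⟩ := p
  obtain ⟨g1, g2, g3⟩ := hp
  simp only at g1 g2 g3 h1
  obtain ⟨b, rfl⟩ := Int.eq_ofNat_of_zero_le g1
  have ht : (1 : ℝ) ≤ t := by exact_mod_cast h1
  push_cast at g2 g3
  have hu : (0 : ℝ) < (d : ℝ) / 3 - b := by
    by_contra hcon
    push Not at hcon
    nlinarith
  have hb : 3 * b < d := by
    have : (3 : ℝ) * b < d := by linarith
    exact_mod_cast this
  unfold TF
  rw [mem_biUnion]
  refine ⟨b, mem_range.2 (by omega), ?_⟩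
  rw [mem_image]
  refine ⟨t, ?_, rfl⟩
  rw [Finset.mem_Icc, Int.ceil_le, Int.le_floor]
  exact ⟨g3, by linarith⟩

/-- lines of lengths prescribed from below, in a finite set -/
theorem card_lines {ι : Type*} [DecidableEq ι] {T : Finset (ℤ × ℤ)} {m : ℕ} {B : ℕ → Finset ι}
    {e f : ℤ} (he : 1 ≤ f) {ψ : ℤ × ℤ → ι} (hψ : ∀ (b : ℤ × ℤ) (j : ℕ), ψ (b.1 + e * j, b.2 + f * j) = ψ b)
    (H : ∀ j ≤ m, ∀ c ∈ B j, ∃ b : ℤ × ℤ, ψ b = c ∧
      ∀ s : ℕ, s ≤ j → ((b.1 + e * s, b.2 + f * s) : ℤ × ℤ) ∈ T) :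
    ∑ j ∈ range (m + 1), (B j).card ≤ T.card := by
  classical
  have h1 : ∀ c : ι, ∃ b : ℤ × ℤ, ∀ j ≤ m, c ∈ B j → ψ b = c ∧
      ((b.1 + e * j, b.2 + f * j) : ℤ × ℤ) ∈ T := by
    intro c
    by_cases hex : ∃ j, j ≤ m ∧ c ∈ B j
    · obtain ⟨j0, hj0, hc0⟩ := hex
      have h2 := Nat.findGreatest_spec (P := fun j => c ∈ B j) hj0 hc0
      obtain ⟨b, hb, hb'⟩ := H _ (Nat.findGreatest_le m) c h2
      exact ⟨b, fun j hj hcj => ⟨hb, hb' j (Nat.le_findGreatest hj hcj)⟩⟩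
    · exact ⟨0, fun j hj hcj => absurd ⟨j, hj, hcj⟩ hex⟩
  choose b hb using h1
  rw [← card_sigma]
  refine card_le_card_of_injOn (fun x : (_ : ℕ) × ι => (((b x.2).1 + e * x.1, (b x.2).2 + f * x.1) : ℤ × ℤ)) ?_ ?_
  · rintro ⟨j, c⟩ hx
    rw [mem_coe, mem_sigma, mem_range] at hx
    simp only at hx
    exact (hb c j (by omega) hx.2).2
  · rintro ⟨j, c⟩ hx ⟨j', c'⟩ hx' heq
    rw [mem_coe, mem_sigma, mem_range] at hx hx'
    simp only at hx hx' heq
    have h2 := (hb c j (by omega) hx.2).1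
    have h3 := (hb c' j' (by omega) hx'.2).1
    have h4 : c = c' := by
      rw [← h2, ← h3, ← hψ (b c) j, ← hψ (b c') j', heq]
    subst h4
    rw [Prod.mk.injEq] at heq
    have h5 : f * (j : ℤ) = f * j' := by linarith [heq.2]
    have h6 : (j : ℤ) = j' := mul_left_cancel₀ (by omega) h5
    have h7 : j = j' := by exact_mod_cast h6
    subst h7
    rfl

end

end Pool.Agent.H59.RR
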