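import Pool.Agent.H59.RR.Cnt

set_option autoImplicit false

/-! The figure with three classes after the two flattenings, and its number of exponents. -/

namespace Pool.Agent.H59.RR

open Finset Pool.Agent.TH183.QC Pool.Agent.TH183.QS Pool.Agent.TH183.QI Pool.Agent.H59.PF
open Pool.Agent.TH183.QN (TT)

section
variable {f h e q : ℕ} {K σ : ℝ}

/-- **the number of exponents in all rows** -/
theorem sum_BB (P : Pr f h e q K σ) (d m : ℕ) :
    ∑ j ∈ range (m + 1), (BB f e q K (yy f e K d j)).card ≤ nd d := by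
  classical
  have hK := P.K9
  obtain ⟨R, hR⟩ : ∃ R : ℕ → Finset ℤ, R = fun k : ℕ => (Finset.Icc (1 : ℤ) ⌊K * d / 3⌋).filter
    fun t => ((t, (k : ℤ)) : ℤ × ℤ) ∈ GGo q K d := ⟨_, rfl⟩
  obtain ⟨G, hG⟩ : ∃ G : Finset (ℤ × ℤ), G = (range (d + 1)).biUnion fun k =>
    (R k).image fun t => (t, (k : ℤ)) := ⟨_, rfl⟩
  have hGm : ∀ p ∈ GGo q K d, p ∈ G := by
    rintro ⟨t, k⟩ hp
    have hp' := hp
    obtain ⟨g1, g2, g3, g4⟩ := hp
    simp only at g1 g2 g3 g4
    obtain ⟨k, rfl⟩ := Int.eq_ofNat_of_zero_le g1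
    have ht : (1 : ℝ) ≤ t := by exact_mod_cast g3
    have hk0 : (0 : ℝ) ≤ k := Nat.cast_nonneg k
    have hd0 : (0 : ℝ) ≤ d := Nat.cast_nonneg d
    push_cast at g2
    have hkd : k ≤ d := by
      have : (k : ℝ) ≤ d := by nlinarith
      exact_mod_cast this
    rw [hG, mem_biUnion]
    refine ⟨k, mem_range.2 (by omega), ?_⟩
    rw [mem_image]
    refine ⟨t, ?_, rfl⟩
    rw [hR, mem_filter, Finset.mem_Icc, Int.le_floor]
    refine ⟨⟨g3, ?_⟩, hp'⟩
    have : 0 ≤ K * k := by positivity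
    linarith
  have h1 : ∑ j ∈ range (m + 1), (BB f e q K (yy f e K d j)).card ≤ G.card := by
    refine card_lines (m := m) (B := fun j => BB f e q K (yy f e K d j)) (e := (e : ℤ)) (f := (f : ℤ))
      (by exact_mod_cast P.f1) (ψ := fun p => f * p.1 - e * p.2) (fun b j => by simp only; ring) ?_
    intro j _ c hc
    obtain ⟨t0, k0, h2, h3⟩ := line_mem P hc
    refine ⟨(t0, k0), h2, fun s hs => hGm _ ?_⟩
    exact h3 s (Int.natCast_nonneg s) (by exact_mod_cast hs)
  have h2 : G.card ≤ ∑ k ∈ range (d + 1), (R k).card := by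
    rw [hG]
    exact card_biUnion_le.trans (sum_le_sum fun k _ => card_image_le)
  have h3 : ∑ k ∈ range (d + 1), (R k).card ≤ (TF K d).card := by
    refine card_lines (m := d) (B := R) (e := 0) (f := 1) le_rfl (ψ := Prod.fst)
      (fun b j => by simp) ?_
    intro k _ t ht
    rw [hR, mem_filter] at ht
    obtain ⟨b0, hb⟩ := gg_col P (ggo_sub q K d ht.2)
    refine ⟨(t, b0), rfl, fun s hs => ?_⟩
    have h4 := hb (b0 + s) (by omega) (by omega)
    have e1 : (((t, b0) : ℤ × ℤ).1 + 0 * (s : ℤ), ((t, b0) : ℤ × ℤ).2 + 1 * (s : ℤ)) = (t, b0 + s) := by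
      ext <;> simp
    rw [e1]
    refine t0_TF hK h4 ?_
    have := (Finset.mem_Icc.1 ht.1).1
    exact this
  exact ((h1.trans h2).trans h3).trans (card_TF P d)

end

section
variable {e q : ℕ} {K σ : ℝ}

/-- the deviation from the critical degree -/
noncomputable def et (K σ : ℝ) (d m : ℕ) : ℝ := K * (2 * d + 3 - σ * (2 * m + 1)) / 6

theorem fl_nat (x : ℝ) : ⌊x⌋ ≤ ((⌊x⌋₊ : ℕ) : ℤ) := by
  rw [← Int.floor_toNat]
  exact Int.self_le_toNat _

theorem yy_Rb (P : Pr 3 1 e q K σ) (d m : ℕ) (j : ℕ) (g : ℕ) :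
    yy ((3 : ℕ) : ℕ) e K d j - K * g = Rb e K (et K σ d m) g ((m : ℤ) - j) := by
  have h0 := P.yy_eq d m ((m : ℝ) - j)
  have e0 : (m : ℝ) - (m - j) = j := by ring
  rw [e0] at h0
  rw [h0]
  unfold Rb et
  push_cast
  ring

theorem yy_Lb (P : Pr 3 1 e q K σ) (d m : ℕ) (j : ℕ) {g g' : ℕ} (hg : g + g' = 2) :
    (yy ((3 : ℕ) : ℕ) e K d j + K * (1 + g')) / (1 + q * K) = Lb e K (et K σ d m) g ((m : ℤ) - j) := by
  have h0 := P.yy_eq d m ((m : ℝ) - j)
  have e0 : (m : ℝ) - (m - j) = j := by ring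
  rw [e0] at h0
  have hgR : (g' : ℝ) = 2 - g := by
    have : (g : ℝ) + g' = 2 := by exact_mod_cast hg
    linarith
  have hK : K ≠ 0 := by have := P.K9; linarith
  have hke := P.ke
  rw [P.div, h0, hgR]
  unfold Lb et
  push_cast at hke ⊢
  field_simp
  linear_combination (6 * (2 * ((m : ℝ) - j) + 1)) * hke

theorem pr_k32 (P : Pr 3 1 e q K σ) : K * (K - 9) = 3 / 2 * e := by
  have := P.ke
  push_cast at this
  linarith

theorem pr_e12 (P : Pr 3 1 e q K σ) : e = 1 ∨ e = 2 := by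
  have := P.e1
  have := P.e2
  omega

/-- **the figure after two flattenings** -/
theorem sb_sub (P : Pr 3 1 e q K σ) {d m : ℕ} (heta : -(3 / 2) ≤ et K σ d m) (hη : et K σ d m < 0) :
    SB 3 e q K d ⊆ Tri e m (Ad e K (et K σ d m)) (Bd e K (et K σ d m) 0 0 m) := by
  obtain ⟨e1, e2, e3, e4, e6⟩ := k_facts (pr_e12 P) P.K9 (pr_k32 P)
  have hK := P.K9
  have hκ : 0 < K - 9 := by linarith
  rintro ⟨c, l⟩ ⟨h1, h2⟩
  simp only at h1 h2
  obtain ⟨j, rfl⟩ := Int.eq_ofNat_of_zero_le h1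
  rw [Int.toNat_natCast] at h2
  obtain ⟨η, hηd⟩ : ∃ η, η = et K σ d m := ⟨_, rfl⟩
  have q1 : (K - 9) * η / K < 0 := by
    rw [hηd]
    exact div_neg_of_neg_of_pos (mul_neg_of_pos_of_neg hκ hη) (by linarith)
  have q2 : -((K - 9) / 6) ≤ (K - 9) * η / K := by
    rw [hηd, le_div_iff₀ (by linarith)]
    nlinarith
  unfold BB at h2
  rw [mem_union] at h2
  obtain ⟨i, hi⟩ : ∃ i : ℤ, i = (m : ℤ) - j := ⟨_, rfl⟩
  rcases h2 with h2 | h2
  · obtain ⟨g, x, hg, hx, hc⟩ := mem_BR.1 h2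
    have hgR : (g : ℝ) ≤ 2 := by
      have : g ≤ 2 := by omega
      exact_mod_cast this
    have hg0 : (0 : ℝ) ≤ g := Nat.cast_nonneg g
    have h3 : (((x + 1 : ℕ)) : ℝ) ≤ Rb e K η g i := by
      have h4 : x + 1 ≤ nR K (yy 3 e K d j) g := hx
      unfold nR at h4
      rw [Nat.le_floor_iff' (by omega), yy_Rb P, ← hi, ← hηd] at h4
      exact h4
    have hx0 : (0 : ℝ) ≤ x := Nat.cast_nonneg x
    push_cast at h3
    -- the row of a point at the right end
    have hi0 : 0 ≤ i := by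
      by_contra hcon
      have h5 : (i : ℝ) ≤ -1 := by
        have : i ≤ -1 := by omega
        exact_mod_cast this
      unfold Rb at h3
      have g1 : K * (3 * i + 1 - g) ≤ K * (-2) := mul_le_mul_of_nonneg_left (by linarith) (by linarith)
      nlinarith
    have hi0R : (0 : ℝ) ≤ i := by exact_mod_cast hi0
    have hL : ((e : ℤ) - 1 : ℤ) ≤ ⌊Lb e K η g i⌋ := by
      rw [Int.le_floor]
      push_cast
      unfold Lb
      rcases hi0.eq_or_lt with h0 | h0
      · rw [← h0] at h3 ⊢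
        unfold Rb at h3
        push_cast at h3 ⊢
        have hg1 : g = 0 := by
          by_contra hcon
          have h5 : (1 : ℝ) ≤ g := by exact_mod_cast Nat.one_le_iff_ne_zero.2 hcon
          have g1 : K * (3 * 0 + 1 - g) ≤ 0 := mul_nonpos_of_nonneg_of_nonpos (by linarith) (by linarith)
          rw [hηd] at h3
          linarith
        subst hg1
        push_cast
        nlinarith
      · have h5 : (1 : ℝ) ≤ i := by exact_mod_cast h0
        have g2 : (K - 9) * (3 * i - 1 + g) ≤ (K - 9) * (3 * i + 1) :=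
          mul_le_mul_of_nonneg_left (by linarith) hκ.le
        have g3 : (K - 9) * 6 * i ≤ e * i := mul_le_mul_of_nonneg_right e6 (by linarith)
        nlinarith
    refine ⟨by simp, (x : ℤ) + 1, g, hg, by simp only; rw [hc]; push_cast; ring, ?_, ?_⟩
    · simp only
      unfold Ad
      rw [← hi, ← hηd]
      omega
    · simp only
      unfold Bd
      rw [← hi, ← hηd]
      have h6 : (x : ℤ) + 1 ≤ ⌊Rb e K η g i⌋ := by
        rw [Int.le_floor]
        push_cast
        exact h3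
      split_ifs <;> omega
  · obtain ⟨g', x, hg', hx, hc⟩ := mem_BL.1 h2
    obtain ⟨g, hg⟩ : ∃ g : ℕ, g + g' = 2 := ⟨2 - g', by omega⟩
    have hgR : (g : ℝ) ≤ 2 := by
      have : g ≤ 2 := by omega
      exact_mod_cast this
    have hg0 : (0 : ℝ) ≤ g := Nat.cast_nonneg g
    have h3 : (((x + e : ℕ)) : ℝ) ≤ Lb e K η g i := by
      unfold nL at hx
      have h3 := P.e1
      have h4 : x + e ≤ ⌊(yy 3 e K d j + K * (1 + g')) / (1 + q * K)⌋₊ := by omega
      rw [Nat.le_floor_iff' (by omega), yy_Lb P d m j hg, ← hi, ← hηd] at h4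
      exact h4
    have hx0 : (0 : ℝ) ≤ x := Nat.cast_nonneg x
    push_cast at h3
    have hi1 : 1 ≤ i := by
      by_contra hcon
      have h5 : (i : ℝ) ≤ 0 := by
        have : i ≤ 0 := by omega
        exact_mod_cast this
      unfold Lb at h3
      nlinarith
    have hi1R : (1 : ℝ) ≤ i := by exact_mod_cast hi1
    have hR : (0 : ℤ) ≤ ⌊Rb e K η g i⌋ := by
      apply Int.floor_nonneg.2
      unfold Rb
      have g1 : K * (3 * i + 1 - g) ≥ K * 2 := mul_le_mul_of_nonneg_left (by linarith) (by linarith)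
      rw [hηd]
      nlinarith
    have hgZ : (g' : ℤ) = 2 - g := by omega
    refine ⟨by simp, -(x : ℤ), g, by omega, by simp only; rw [hc, hgZ]; push_cast; ring, ?_, ?_⟩
    · simp only
      unfold Ad
      rw [← hi, ← hηd]
      have h6 : (x : ℤ) + e ≤ ⌊Lb e K η g i⌋ := by
        rw [Int.le_floor]
        push_cast
        exact h3
      omega
    · simp only
      unfold Bd
      rw [← hi, ← hηd]
      split_ifs <;> omega

/-- the rows of the figure and the lines -/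
theorem cn_BB (P : Pr 3 1 e q K σ) (d m j : ℕ) :
    cn e K (et K σ d m) ((m : ℤ) - j) ≤ ((BB 3 e q K (yy 3 e K d j)).card : ℤ) := by
  rw [card_BB P]
  push_cast
  have key : ∀ g g' : ℕ, g + g' = 2 → ⌊Lb e K (et K σ d m) g ((m : ℤ) - j)⌋ - e + 1 ≤
      ((nL e q K (yy 3 e K d j) g' : ℕ) : ℤ) := by
    intro g g' hg
    rw [← yy_Lb P d m j hg]
    unfold nL
    have h1 := fl_nat ((yy 3 e K d j + K * (1 + g')) / (1 + q * K))
    have := P.e1
    omega
  have key2 : ∀ g : ℕ, ⌊Rb e K (et K σ d m) g ((m : ℤ) - j)⌋ ≤ ((nR K (yy 3 e K d j) g : ℕ) : ℤ) := by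
    intro g
    rw [← yy_Rb P]
    unfold nR
    exact fl_nat _
  have k0 := key 0 2 rfl
  have k1 := key 1 1 rfl
  have k2 := key 2 0 rfl
  have l0 := key2 0
  have l1 := key2 1
  have l2 := key2 2
  unfold cn
  simp only [sum_range_succ, sum_range_zero]
  linarith

/-- **the dimension** -/
theorem count_le (P : Pr 3 1 e q K σ) (d m : ℕ) :
    ⌊Rb e K (et K σ d m) 0 0⌋ - dd e K (et K σ d m) m ≤
      (nd d : ℤ) - rr 3 e * ((m + 1).choose 2 : ℕ) := by
  have h1 := sum_BB P d m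
  rw [sum_range_succ] at h1
  have h2 : ⌊Rb e K (et K σ d m) 0 0⌋ ≤ ((BB 3 e q K (yy 3 e K d m)).card : ℤ) := by
    rw [card_BB P]
    have h3 : nR K (yy 3 e K d m) 0 ≤ ∑ g ∈ range 3, (nR K (yy 3 e K d m) g + nL e q K (yy 3 e K d m) g) := by
      simp only [sum_range_succ, sum_range_zero]
      omega
    have h4 : ⌊Rb e K (et K σ d m) 0 0⌋ ≤ ((nR K (yy 3 e K d m) 0 : ℕ) : ℤ) := by
      have h5 := yy_Rb P d m m 0
      rw [sub_self] at h5
      rw [← h5]
      unfold nR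
      exact fl_nat _
    exact h4.trans (by exact_mod_cast h3)
  have h3 : ∑ i ∈ range m, cn e K (et K σ d m) (i + 1) ≤
      ((∑ j ∈ range m, (BB 3 e q K (yy 3 e K d j)).card : ℕ) : ℤ) := by
    push_cast
    rw [← Finset.sum_range_reflect]
    refine sum_le_sum fun i hi => ?_
    rw [mem_range] at hi
    have h4 := cn_BB P d m i
    have e1 : (((m - 1 - i : ℕ)) : ℤ) + 1 = (m : ℤ) - i := by omega
    rw [e1]
    exact h4
  have h4 : ∑ i ∈ range m, ((i : ℤ) + 1) = ((m + 1).choose 2 : ℕ) := by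
    have h5 : ∑ i ∈ range m, (i + 1) = (m + 1).choose 2 := by
      have h6 := Finset.sum_range_succ' (fun i => i) m
      rw [add_zero] at h6
      rw [← h6, Finset.sum_range_id, Nat.choose_two_right]
    rw [← h5]
    push_cast
    rfl
  have h5 : dd e K (et K σ d m) m = rr 3 e * ((m + 1).choose 2 : ℕ) -
      ∑ i ∈ range m, cn e K (et K σ d m) (i + 1) := by
    unfold dd
    rw [sum_sub_distrib, ← mul_sum, h4]
  rw [h5]
  have h6 : ((∑ j ∈ range m, (BB 3 e q K (yy 3 e K d j)).card : ℕ) : ℤ) +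
      ((BB 3 e q K (yy 3 e K d m)).card : ℤ) ≤ nd d := by exact_mod_cast h1
  linarith

end

end Pool.Agent.H59.RR
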