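import Pool.Agent.H59.RR.Conn
import Pool.Graph.R_seed8.TH183.QS.Fin

set_option autoImplicit false

/-! The dimensions for `r = 11, 13, 87, 93`. -/

namespace Pool.Agent.H59.RR

open Finset Polynomial Pool.Agent.TH183.QC Pool.Agent.TH183.QS Pool.Agent.TH183.QI Pool.Agent.H59.PF
open Pool.Agent.H932R2 Pool.Agent.H932R3
open Pool.Agent.TH183.QN (TT EmpW)

universe u

/-- the bound for the number of additional conditions -/
def bn (r m d : ℕ) : ℕ := max ((d + 2).choose 2 - r * (m + 1).choose 2) (if 3 ∣ d then 1 else 0)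

section
variable {e q : ℕ} {K σ : ℝ}

/-- from the set after the first flattening to the plane -/
theorem emp_plane {f h : ℕ} (P : Pr f h e q K σ) {r m n d : ℕ} (hn : n + (if 3 ∣ d then 1 else 0) ≤ bn r m d)
    (hS : EmpA (esD r m n) (GGo q K d)) :
    EmpF (bn r m d) (fun _ : Unit => (r : ℝ)) (fun _ => (r * m : ℝ)) (TT d) := by
  have h1 : EmpA (esD r m (n + (if 3 ∣ d then 1 else 0))) (GG q K d) := by
    split_ifs with h3
    · have h2 := esI_add (T := {((0 : ℤ), (0 : ℤ))}) hS (S' := GG q K d) (by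
        rw [coe_singleton]
        exact gg_sub q K d)
      rw [card_singleton] at h2
      exact h2
    · rw [gg_eq q K d h3]
      exact hS
  have h2 := empA_gg P (keyD r m _) h1
  exact (h2 _ subset_rfl (TT_ncard d).1).le hn

/-- **below the critical degree**, `r = 87, 93` -/
theorem emp_three (P : Pr 3 1 e q K σ) {d m : ℕ} (heta : -(3 / 2) ≤ et K σ d m) (hη : et K σ d m < 0) :
    EmpF (bn (rr 3 e) m d) (fun _ : Unit => ((rr 3 e : ℕ) : ℝ)) (fun _ => ((rr 3 e : ℕ) * m : ℝ)) (TT d) := by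
  have hK := P.K9
  have he := pr_e12 P
  have hke := pr_k32 P
  have hK5 : K < 9.5 := by
    by_contra hcon
    push Not at hcon
    have he2 := P.eR2
    nlinarith
  have hR : Rb e K (et K σ d m) 0 0 = e / 2 + K + et K σ d m := by
    unfold Rb; push_cast; ring
  -- the number of exponents in the row of the apex
  have hE : ⌊Rb e K (et K σ d m) 0 0⌋ ≤ 10 ∧ (17 : ℝ) + 3 * ⌊Rb e K (et K σ d m) 0 0⌋ ≤ e + 5 * K ∧
      (9 : ℝ) + 3 * ⌊Rb e K (et K σ d m) 0 0⌋ ≤ e + 4 * K ∧ 0 ≤ ⌊Rb e K (et K σ d m) 0 0⌋ := by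
    rcases he with rfl | rfl
    · have h1 : ⌊Rb 1 K (et K σ d m) 0 0⌋ < 10 := by
        rw [Int.floor_lt, hR]
        push_cast
        linarith
      have h2 : ⌊Rb 1 K (et K σ d m) 0 0⌋ ≤ 9 := by omega
      have h3 : ((⌊Rb 1 K (et K σ d m) 0 0⌋ : ℤ) : ℝ) ≤ 9 := by exact_mod_cast h2
      have h4 : 0 ≤ ⌊Rb 1 K (et K σ d m) 0 0⌋ := by
        apply Int.floor_nonneg.2
        rw [hR]
        push_cast
        linarith
      refine ⟨by omega, by push_cast; linarith, by push_cast; linarith, h4⟩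
    · have h0 : 9.25 < K := by
        by_contra hcon
        push Not at hcon
        push_cast at hke
        nlinarith
      have h1 : ⌊Rb 2 K (et K σ d m) 0 0⌋ < 11 := by
        rw [Int.floor_lt, hR]
        push_cast
        linarith
      have h2 : ⌊Rb 2 K (et K σ d m) 0 0⌋ ≤ 10 := by omega
      have h3 : ((⌊Rb 2 K (et K σ d m) 0 0⌋ : ℤ) : ℝ) ≤ 10 := by exact_mod_cast h2
      have h4 : 0 ≤ ⌊Rb 2 K (et K σ d m) 0 0⌋ := by
        apply Int.floor_nonneg.2
        rw [hR]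
        push_cast
        linarith
      refine ⟨h2, by push_cast; linarith, by push_cast; linarith, h4⟩
  obtain ⟨hE1, hE2, hE3, hE0⟩ := hE
  obtain ⟨n, hn⟩ : ∃ n : ℕ, n = (⌊Rb e K (et K σ d m) 0 0⌋ - dd e K (et K σ d m) m).toNat := ⟨_, rfl⟩
  have h1 := empA_tri heta hη he hK P.K10 hke hE1 hE2 hE3 m 0 n le_rfl hE0 (by
    rw [hn, sub_zero]
    exact Int.self_le_toNat _)
  have h2 : EmpA (esD (rr 3 e) m n) (GGo q K d) := empA_sb P (h1.mono (sb_sub P heta hη))
  refine emp_plane P ?_ h2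
  have h3 := count_le P d m
  have h4 := nd_eq d
  unfold bn
  rw [hn]
  generalize (d + 2).choose 2 = v at *
  generalize (m + 1).choose 2 = v' at *
  have h5 : ((rr 3 e * v' : ℕ) : ℤ) = (rr 3 e : ℤ) * v' := by push_cast; ring
  generalize rr 3 e * v' = z at *
  rw [← h5] at h3
  split_ifs at h4 ⊢ <;> omega

/-- **below the critical degree**, `r = 11, 13` -/
theorem emp_one (P : Pr 1 0 e q K σ) {d m : ℕ} (ht : 2 * d + 3 < σ * (2 * m + 1))
    (ht2 : σ * (2 * m + 1) ≤ 2 * d + 3 + 2) :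
    EmpF (bn (rr 1 e) m d) (fun _ : Unit => ((rr 1 e : ℕ) : ℝ)) (fun _ => ((rr 1 e : ℕ) * m : ℝ)) (TT d) := by
  have h0 : (BB 1 e q K (yy 1 e K d m)).card = 0 := by
    have hK := P.K9
    have he1 := P.eR1
    have he2 := P.eR2
    have hD := P.D0
    have hqe := P.qeR
    have h0 := P.yy_eq d m 0
    rw [sub_zero, mul_zero, zero_add] at h0
    have hη0 : K * (2 * d + 3 - σ * (2 * m + 1)) / 6 < 0 := by
      have : K * (2 * d + 3 - σ * (2 * m + 1)) < 0 := mul_neg_of_pos_of_neg (by linarith) (by linarith)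
      linarith
    have h7 : yy 1 e K d m < e / 2 := by
      rw [h0]
      push_cast
      linarith
    rw [card_BB P]
    simp only [sum_range_one]
    have h8 : nR K (yy 1 e K d m) 0 = 0 := by
      unfold nR
      rw [Nat.floor_eq_zero]
      push_cast
      linarith
    have h9 : nL e q K (yy 1 e K d m) 0 = 0 := by
      unfold nL
      have h10 : ⌊(yy 1 e K d m + K * (1 + ((0 : ℕ) : ℝ))) / (1 + q * K)⌋₊ < e := by
        have he := P.e1
        rw [Nat.floor_lt' (by omega), div_lt_iff₀ hD]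
        have e1 : (e : ℝ) * (1 + q * K) = e + (q * e) * K := by ring
        rw [e1, hqe]
        push_cast
        linarith
      omega
    rw [h8, h9]
  have h1 : EmpA (esD (rr 1 e) m (0 + 0)) (GGo q K d) := by
    refine empA_sb P ?_
    refine empA_bump (r := rr 1 e) (m := m) (fun p hp => hp.1) ?_ ?_ ?_ (esD_cl _ m)
    · intro j hj A hA
      have h2 : A ⊆ BB 1 e q K (yy 1 e K d j) := fun a ha => by
        have := (hA a ha).2
        simpa using this
      have h3 := card_le_card h2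
      have h4 := card_up P (d := d) hj ht ht2
      have h5 : ((BB 1 e q K (yy 1 e K d j)).card : ℤ) ≤ ((rr 1 e * (m - j) : ℕ) : ℤ) := by
        push_cast [Nat.cast_sub hj.le]
        exact h4
      exact h3.trans (by exact_mod_cast h5)
    · intro A hA
      rw [← h0]
      exact card_le_card fun a ha => by
        have := (hA a ha).2
        simpa using this
    · intro j hj A hA
      rw [← card_none P (d := d) hj ht]
      exact card_le_card fun a ha => by
        have := (hA a ha).2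
        simpa using this
  refine emp_plane P ?_ h1
  unfold bn
  rw [add_zero, zero_add]
  exact le_max_right _ _

end

/-- **from the predicates to the dimensions** -/
theorem wrap {r : ℕ} (hr : 10 ≤ r) (m : ℕ)
    (hI : ∀ d : ℕ, Real.sqrt (r : ℕ) * (2 * m + 1) ≤ 2 * d + 3 → IndAt r m d)
    (hE : ∀ d : ℕ, 2 * (d : ℝ) + 3 < Real.sqrt (r : ℕ) * (2 * m + 1) →
      Real.sqrt (r : ℕ) * (2 * m + 1) ≤ 2 * d + 3 + (2 / 3 + 9 / (4 * Real.sqrt (r : ℕ))) →
        EmpF (bn r m d) (fun _ : Unit => (r : ℝ)) (fun _ => (r * m : ℝ)) (TT d))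
    (L : Type u) [Field L] [CharZero L] :
    ∃ F : MvPolynomial (Fin (r + 1)) L, F ≠ 0 ∧
      ∀ (c : L) (a : Fin r → L), MvPolynomial.eval (Fin.cons c a : Fin (r + 1) → L) F ≠ 0 →
        ∀ d : ℕ, JetDim r m c a d ∨ (3 ∣ d ∧ (d + 2).choose 2 ≤ r * (m + 1).choose 2 ∧
          r * (m + 1).choose 2 < (d + 3).choose 2 ∧
          Module.finrank L ↥(MvPolynomial.homogeneousSubmodule (Fin 3) L d ⊓
            (Submodule.restrictScalars L (jetIdeal m c a)).comap (deh L).toLinearMap) ≤ 1) := by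
  classical
  rcases le_or_gt (m : ℝ) (r - 6 * √(r : ℝ) + 11) with hsm | hlg
  · obtain ⟨F, hF, hF'⟩ := coll_start hr (Or.inl hsm) L
    exact ⟨F, hF, fun c a hc d => Or.inl (hF' c a hc d)⟩
  have hrR : (10 : ℝ) ≤ r := by exact_mod_cast hr
  obtain ⟨s, hs⟩ : ∃ s, s = √(r : ℝ) := ⟨_, rfl⟩
  have hss : s * s = r := by rw [hs]; exact Real.mul_self_sqrt (by linarith)
  have hs3 : 3 ≤ s := by rw [hs]; exact Real.le_sqrt_of_sq_le (by norm_num; linarith)
  have hs0 : 0 < s := by linarith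
  rw [← hs] at hI hE hlg
  obtain ⟨N, hN⟩ : ∃ N : ℕ, N = ⌈s * (2 * m + 1)⌉₊ := ⟨_, rfl⟩
  -- all degrees below the window
  have hW : ∀ d : ℕ, 2 * (d : ℝ) + 3 + (2 / 3 + 9 / (4 * s)) < s * (2 * m + 1) → EmpAt r m d := by
    intro d hd
    refine empAt_win hr (by rw [← hs]; linarith) ?_
    rw [← hs]
    have e : s * (9 / (4 * s)) = 9 / 4 := by field_simp
    have h1 := mul_lt_mul_of_pos_left hd hs0
    have e2 : s * (s * (2 * (m : ℝ) + 1)) = r * (2 * m + 1) := by rw [← mul_assoc, hss]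
    rw [e2] at h1
    have e3 : s * (2 * (d : ℝ) + 3 + (2 / 3 + 9 / (4 * s))) =
        2 * (s * (d + 3 / 2)) + 2 / 3 * s + s * (9 / (4 * s)) := by ring
    rw [e3, e] at h1
    linarith
  -- degrees not divisible by three
  have key : ∀ d : ℕ, ¬ 3 ∣ d → (d + 2).choose 2 ≤ r * (m + 1).choose 2 → EmpAt r m d := by
    intro d h3 hv
    rcases le_or_gt (s * (2 * m + 1)) (2 * (d : ℝ) + 3) with h | h
    · obtain ⟨h1, h2⟩ := hI d h
      rw [Nat.sub_eq_zero_of_le hv] at h2
      obtain ⟨K, _, _, X, Y, φ, hX, hf⟩ := h2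
      exact ⟨K, _, inferInstance, X, Y, hX, fun f h3 h4 => hf f h3 h4 fun j => j.elim0⟩
    rcases lt_or_ge (2 * (d : ℝ) + 3 + (2 / 3 + 9 / (4 * s))) (s * (2 * m + 1)) with h' | h'
    · exact hW d h'
    · have h2 := hE d h h'
      unfold bn at h2
      rw [Nat.sub_eq_zero_of_le hv, if_neg h3, max_self] at h2
      obtain ⟨K, _, _, X, Y, φ, hX, hf⟩ := h2
      exact ⟨K, _, inferInstance, X, Y, hX, fun f h3 h4 => hf f h3 h4 fun j => j.elim0⟩
  obtain ⟨PL, hPL⟩ : ∃ PL : ℕ → Prop, PL = fun d : ℕ => EmpAt r m d ∧ d ≤ N := ⟨_, rfl⟩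
  obtain ⟨PH, hPH⟩ : ∃ PH : ℕ → Prop, PH = fun d : ℕ => IndAt r m d := ⟨_, rfl⟩
  have hNd : ∀ d : ℕ, 2 * (d : ℝ) + 3 < s * (2 * m + 1) → d ≤ N := by
    intro d hd
    have h1 := hd.le.trans (Nat.le_ceil _)
    rw [← hN] at h1
    have h2 : (d : ℝ) ≤ N := by
      have : (0 : ℝ) ≤ d := Nat.cast_nonneg d
      linarith
    exact_mod_cast h2
  -- the exceptional degrees
  obtain ⟨PE, hPE⟩ : ∃ PE : ℕ → Prop, PE = fun d : ℕ => 3 ∣ d ∧ (d + 2).choose 2 ≤ r * (m + 1).choose 2 ∧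
          r * (m + 1).choose 2 < (d + 3).choose 2 ∧ d ≤ N ∧
          EmpF 1 (fun _ : Unit => (r : ℝ)) (fun _ => (r * m : ℝ)) (TT d) := ⟨_, rfl⟩
  have hall : ∀ d : ℕ, PL d ∨ PH d ∨ PE d := by
    intro d
    rw [hPL, hPH, hPE]
    rcases le_or_gt (s * (2 * m + 1)) (2 * (d : ℝ) + 3) with h | h
    · exact Or.inr (Or.inl (hI d h))
    have hdN := hNd d h
    rcases lt_or_ge (2 * (d : ℝ) + 3 + (2 / 3 + 9 / (4 * s))) (s * (2 * m + 1)) with h' | h'
    · exact Or.inl ⟨hW d h', hdN⟩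
    have h2 := hE d h h'
    rcases le_or_gt ((d + 2).choose 2) (r * (m + 1).choose 2) with hv | hv
    · by_cases h3 : 3 ∣ d
      · rcases le_or_gt ((d + 3).choose 2) (r * (m + 1).choose 2) with hv1 | hv1
        · left
          refine ⟨?_, hdN⟩
          have h4 := key (d + 1) (by omega) hv1
          refine EmpW.mono h4 ?_
          rintro ⟨a, b⟩ ⟨k1, k2, k3⟩
          refine ⟨k1, k2, ?_⟩
          push_cast
          omega
        · right; right
          refine ⟨h3, hv, hv1, hdN, ?_⟩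
          unfold bn at h2
          rw [Nat.sub_eq_zero_of_le hv, if_pos h3] at h2
          exact h2
      · exact Or.inl ⟨key d h3 hv, hdN⟩
    · right; left
      refine ⟨hv.le, h2.le ?_⟩
      unfold bn
      refine max_le le_rfl ?_
      split_ifs <;> omega
  obtain ⟨F, hF, hF'⟩ := coll_wrap (r := r) (m := m) (by omega) (PL := PL) (PH := PH)
    ⟨N, fun d hd => by rw [hPL] at hd; exact hd.2⟩ (fun d hd => by rw [hPL] at hd; exact hd.1)
    (fun d hd => by rw [hPH] at hd; exact hd) L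
  have hG : ∃ G : MvPolynomial (Fin (r + 1)) L, G ≠ 0 ∧
      ∀ (c : L) (a : Fin r → L), MvPolynomial.eval (Fin.cons c a : Fin (r + 1) → L) G ≠ 0 →
        ∀ d : ℕ, PE d → Module.finrank L ↥(MvPolynomial.homogeneousSubmodule (Fin 3) L d ⊓
            (Submodule.restrictScalars L (jetIdeal m c a)).comap (deh L).toLinearMap) ≤ 1 := by
    by_cases hex : ∃ d, PE d
    · obtain ⟨d1, hd1⟩ := hex
      have hd1' := hd1
      rw [hPE] at hd1'
      have h1 := Nat.findGreatest_spec (P := PE) hd1'.2.2.2.1 hd1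
      obtain ⟨D, hD⟩ : ∃ D, D = Nat.findGreatest PE N := ⟨_, rfl⟩
      rw [← hD, hPE] at h1
      obtain ⟨G, hG, hG'⟩ := coll_low (by omega) h1.2.2.2.2 L
      refine ⟨G, hG, fun c a hc d hd => hG' c a hc d ?_⟩
      have hd' := hd
      rw [hPE] at hd'
      rw [hD]
      exact Nat.le_findGreatest hd'.2.2.2.1 hd
    · push Not at hex
      exact ⟨1, one_ne_zero, fun c a _ d hd => absurd hd (hex d)⟩
  obtain ⟨G, hG, hG'⟩ := hG
  refine ⟨F * G, mul_ne_zero hF hG, fun c a hc d => ?_⟩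
  rw [map_mul] at hc
  rcases hall d with h | h | h
  · exact Or.inl (hF' c a (left_ne_zero_of_mul hc) d (Or.inl h))
  · exact Or.inl (hF' c a (left_ne_zero_of_mul hc) d (Or.inr h))
  · right
    have h1 := hG' c a (right_ne_zero_of_mul hc) d h
    rw [hPE] at h
    exact ⟨h.1, h.2.1, h.2.2.1, h1⟩

/-- the window is small -/
theorem win_le {s : ℝ} (hs : 3 ≤ s) : 2 / 3 + 9 / (4 * s) ≤ 17 / 12 := by
  have h1 : 9 / (4 * s) ≤ 3 / 4 := by
    rw [div_le_div_iff₀ (by linarith) (by norm_num)]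
    linarith
  linarith

/-- **`r = 11, 13, 87, 93`** -/
theorem few_values {r : ℕ} (hr : r = 11 ∨ r = 13 ∨ r = 87 ∨ r = 93) (m : ℕ) (L : Type u) [Field L]
    [CharZero L] :
    ∃ F : MvPolynomial (Fin (r + 1)) L, F ≠ 0 ∧
      ∀ (c : L) (a : Fin r → L), MvPolynomial.eval (Fin.cons c a : Fin (r + 1) → L) F ≠ 0 →
        ∀ d : ℕ, JetDim r m c a d ∨ (3 ∣ d ∧ (d + 2).choose 2 ≤ r * (m + 1).choose 2 ∧
          r * (m + 1).choose 2 < (d + 3).choose 2 ∧
          Module.finrank L ↥(MvPolynomial.homogeneousSubmodule (Fin 3) L d ⊓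
            (Submodule.restrictScalars L (jetIdeal m c a)).comap (deh L).toLinearMap) ≤ 1) := by
  have one : ∀ e q : ℕ, 1 ≤ e → e ≤ 2 → q * e = 2 * 1 → r = rr 1 e →
      ∀ d : ℕ, 2 * (d : ℝ) + 3 < Real.sqrt (r : ℕ) * (2 * m + 1) →
      Real.sqrt (r : ℕ) * (2 * m + 1) ≤ 2 * d + 3 + (2 / 3 + 9 / (4 * Real.sqrt (r : ℕ))) →
        EmpF (bn r m d) (fun _ : Unit => (r : ℝ)) (fun _ => (r * m : ℝ)) (TT d) := by
    intro e q h1 h2 h3 h4 d h5 h6
    subst h4
    obtain ⟨K, P⟩ := exists_pr (f := 1) (h := 0) rfl h1 h2 h3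
    refine emp_one P h5 (h6.trans ?_)
    have hs : (3 : ℝ) ≤ Real.sqrt (rr 1 e : ℕ) := by
      apply Real.le_sqrt_of_sq_le
      have : 9 ≤ rr 1 e := by unfold rr; omega
      have : (9 : ℝ) ≤ (rr 1 e : ℕ) := by exact_mod_cast this
      linarith
    have := win_le hs
    linarith
  have three : ∀ e q : ℕ, 1 ≤ e → e ≤ 2 → q * e = 2 * 3 → r = rr 3 e →
      ∀ d : ℕ, 2 * (d : ℝ) + 3 < Real.sqrt (r : ℕ) * (2 * m + 1) →
      Real.sqrt (r : ℕ) * (2 * m + 1) ≤ 2 * d + 3 + (2 / 3 + 9 / (4 * Real.sqrt (r : ℕ))) →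
        EmpF (bn r m d) (fun _ : Unit => (r : ℝ)) (fun _ => (r * m : ℝ)) (TT d) := by
    intro e q h1 h2 h3 h4 d h5 h6
    subst h4
    obtain ⟨K, P⟩ := exists_pr (f := 3) (h := 1) rfl h1 h2 h3
    have hK := P.K9
    have hK5 : K < 9.5 := by
      by_contra hcon
      push Not at hcon
      have he2 := P.eR2
      have hke := pr_k32 P
      nlinarith
    have hs : (9 : ℝ) ≤ Real.sqrt (rr 3 e : ℕ) := by
      apply Real.le_sqrt_of_sq_le
      have : 81 ≤ rr 3 e := by unfold rr; omega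
      have : (81 : ℝ) ≤ (rr 3 e : ℕ) := by exact_mod_cast this
      linarith
    have hw : 9 / (4 * Real.sqrt (rr 3 e : ℕ)) ≤ 1 / 4 := by
      rw [div_le_div_iff₀ (by linarith) (by norm_num)]
      linarith
    refine emp_three P ?_ ?_
    · unfold et
      have h7 : -(11 / 12) ≤ 2 * (d : ℝ) + 3 - Real.sqrt (rr 3 e : ℕ) * (2 * m + 1) := by linarith
      have h8 := mul_le_mul_of_nonneg_left h7 (show (0 : ℝ) ≤ K by linarith)
      linarith
    · unfold et
      have h7 : 2 * (d : ℝ) + 3 - Real.sqrt (rr 3 e : ℕ) * (2 * m + 1) < 0 := by linarith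
      have h8 := mul_neg_of_pos_of_neg (show (0 : ℝ) < K by linarith) h7
      linarith
  have ind : ∀ a j : ℕ, Odd a → j ∣ 2 * a → r = 9 * a ^ 2 + 2 * a * j →
      ∀ d : ℕ, Real.sqrt (r : ℕ) * (2 * m + 1) ≤ 2 * d + 3 → IndAt r m d := by
    intro a j ha hj h d hd
    subst h
    exact fam_ind ha hj hd
  rcases hr with h | h | h | h
  · refine wrap (by omega) m (ind 1 1 (by decide) (by decide) (by omega)) (one 1 2 (by norm_num) (by norm_num) (by norm_num) ?_) L
    rw [h]; rfl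
  · refine wrap (by omega) m (ind 1 2 (by decide) (by decide) (by omega)) (one 2 1 (by norm_num) (by norm_num) (by norm_num) ?_) L
    rw [h]; rfl
  · refine wrap (by omega) m (ind 3 1 (by decide) (by decide) (by omega)) (three 1 6 (by norm_num) (by norm_num) (by norm_num) ?_) L
    rw [h]; rfl
  · refine wrap (by omega) m (ind 3 2 (by decide) (by decide) (by omega)) (three 2 3 (by norm_num) (by norm_num) (by norm_num) ?_) L
    rw [h]; rfl

end Pool.Agent.H59.RR
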