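import Pool.Agent.H59.RR.Row

set_option autoImplicit false

/-! Flattening of figures with three classes: exchange of two neighbouring lines. -/

namespace Pool.Agent.H59.RR

open Finset Pool.Agent.TH183.QC

/-- **flattening along steep lines**: along every line the set is described by a lower bound which
increases and by upper bounds which are a permutation of decreasing ones -/
theorem empA_fold {w : ES} (N : ℤ) {S S' : Set (ℤ × ℤ)} (hpos : ∀ p ∈ S, 0 ≤ p.2)
    (H : ∀ c : ℤ, ∃ (x : ℤ) (a b b' : ℕ → ℤ) (σ : ℕ → ℕ), Function.Injective σ ∧ Monotone a ∧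
      Antitone b' ∧ (∀ l, b l ≤ b' (σ l)) ∧
      (∀ l : ℕ, ((c - N * l, (l : ℤ)) : ℤ × ℤ) ∈ S → a l ≤ x ∧ x ≤ b l) ∧
      ∀ l : ℕ, a l ≤ x → x ≤ b' l → ((c - N * l, (l : ℤ)) : ℤ × ℤ) ∈ S')
    (h : EmpA w S') : EmpA w S := by
  classical
  have h1 : EmpA w {p : ℤ × ℤ | ((p.1 - N * p.2, p.2) : ℤ × ℤ) ∈ S'} := by
    refine h.comap 1 (-N) 0 1 0 0 (by norm_num) ?_
    rintro ⟨c, l⟩ hp
    have e1 : ((1 * c + -N * l + 0, 0 * c + 1 * l + 0) : ℤ × ℤ) = (c - N * l, l) := by
      ext
      · simp only; ring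
      · simp only; ring
    simp only [e1]
    exact hp
  have h2 : EmpA w {p : ℤ × ℤ | ((p.1 - N * p.2, p.2) : ℤ × ℤ) ∈ S} := by
    refine EmpA_flat0 ?_ h1
    intro c B hB k hk
    obtain ⟨x, a, b, b', σ, hσ, ha, hb', hbb, hS, hS'⟩ := H c
    have hB0 : ∀ z ∈ B, ∃ l : ℕ, z = l ∧ a l ≤ x ∧ x ≤ b l := by
      intro z hz
      have h3 := hpos _ (hB z hz)
      simp only at h3
      obtain ⟨l, rfl⟩ := Int.eq_ofNat_of_zero_le h3
      exact ⟨l, rfl, hS l (hB _ hz)⟩
    refine hS' k ?_ ?_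
    · by_contra hcon
      have h4 : B ⊆ (range k).image (fun l : ℕ => (l : ℤ)) := by
        intro z hz
        obtain ⟨l, rfl, h5, -⟩ := hB0 z hz
        rw [mem_image]
        refine ⟨l, ?_, rfl⟩
        rw [mem_range]
        by_contra h6
        exact hcon ((ha (not_lt.1 h6)).trans h5)
      have h5 := card_le_card h4
      have h6 := card_image_le (s := range k) (f := fun l : ℕ => (l : ℤ))
      rw [card_range] at h6
      omega
    · by_contra hcon
      have h4 : (B.image fun z : ℤ => σ z.toNat) ⊆ range k := by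
        intro z hz
        rw [mem_image] at hz
        obtain ⟨y, hy, rfl⟩ := hz
        obtain ⟨l, rfl, -, h5⟩ := hB0 y hy
        rw [Int.toNat_natCast, mem_range]
        by_contra h6
        exact hcon ((h5.trans (hbb l)).trans (hb' (not_lt.1 h6)))
      have h5 := card_le_card h4
      rw [card_range, card_image_of_injOn] at h5
      · omega
      · intro z hz z' hz' hzz
        obtain ⟨l, rfl, -⟩ := hB0 z hz
        obtain ⟨l', rfl, -⟩ := hB0 z' hz'
        simp only [Int.toNat_natCast] at hzz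
        rw [hσ hzz]
  refine h2.comap 1 N 0 1 0 0 (by norm_num) ?_
  rintro ⟨c, l⟩ hp
  have e1 : ((1 * c + N * l + 0 - N * (0 * c + 1 * l + 0), 0 * c + 1 * l + 0) : ℤ × ℤ) = (c, l) := by
    ext
    · simp only; ring
    · simp only; ring
  show ((1 * c + N * l + 0 - N * (0 * c + 1 * l + 0), 0 * c + 1 * l + 0) : ℤ × ℤ) ∈ S
  rw [e1]
  exact hp

/-- the figures with three classes of columns; the row `M - l` has height `l` -/
def Tri (e M : ℤ) (A B : ℕ → ℤ → ℤ) : Set (ℤ × ℤ) :=
  {p | 0 ≤ p.2 ∧ ∃ (x : ℤ) (g : ℕ), g < 3 ∧ p.1 = 3 * x - e * g ∧ A g (M - p.2) ≤ x ∧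
    x ≤ B g (M - p.2)}

theorem Tri_mono {e M : ℤ} {A B B' : ℕ → ℤ → ℤ} (h : ∀ g < 3, ∀ i ≤ M, B g i ≤ B' g i) :
    Tri e M A B ⊆ Tri e M A B' := by
  rintro p ⟨h0, x, g, h1, h2, h3, h4⟩
  exact ⟨h0, x, g, h1, h2, h3, h4.trans (h g h1 _ (by omega))⟩

/-- the bounds after the exchange of the classes `2` and `0` -/
def sw (e w M : ℤ) (B : ℕ → ℤ → ℤ) (g : ℕ) (i : ℤ) : ℤ :=
  if g = 0 then (if i < M then B 2 (i + 1) - w - e else B 0 i) else
    if g = 2 then B 0 (i - 1) + w + e else B g i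

/-- **the exchange of the classes `2` and `0`** -/
theorem empA_swap {W : ES} {e w M : ℤ} (he : e = 1 ∨ e = 2) {A B : ℕ → ℤ → ℤ}
    (a0 : ∀ i ≤ M, A 0 i ≤ A 1 (i - 1) + w) (a1 : ∀ i ≤ M, A 1 i ≤ A 2 (i - 1) + w)
    (a2 : ∀ i ≤ M, A 2 i ≤ A 0 (i - 1) + w + e)
    (c1 : ∀ i ≤ M, B 2 i ≤ B 0 (i - 1) + w + e)
    (c2 : ∀ i < M, B 1 (i - 1) + 2 * w + e ≤ B 2 (i + 1))
    (c2' : B 1 (M - 1) + w ≤ B 0 M)
    (c3 : ∀ i ≤ M, B 0 (i - 2) + 2 * w + e ≤ B 1 i)
    (h : EmpA W (Tri e M A (sw e w M B))) : EmpA W (Tri e M A B) := by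
  refine empA_fold (e + 3 * w) (fun p hp => hp.1) ?_ h
  intro c
  obtain ⟨x, g0, hg0, hc⟩ : ∃ (x : ℤ) (g0 : ℕ), g0 < 3 ∧ c = 3 * x - e * g0 := by
    rcases he with rfl | rfl
    · refine ⟨(c + ((-c) % 3)) / 3, ((-c) % 3).toNat, ?_, ?_⟩ <;> omega
    · refine ⟨(c + 2 * (c % 3)) / 3, (c % 3).toNat, ?_, ?_⟩ <;> omega
  -- the class and the position at height `l`
  have key : ∀ l : ℕ, ∃ (q g : ℕ), g < 3 ∧ g0 + l = 3 * q + g ∧
      c - (e + 3 * w) * l = 3 * (x - w * l - e * q) - e * g := by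
    intro l
    refine ⟨(g0 + l) / 3, (g0 + l) % 3, Nat.mod_lt _ (by norm_num), (Nat.div_add_mod _ _).symm, ?_⟩
    have h1 : (((g0 + l : ℕ)) : ℤ) = 3 * ((g0 + l) / 3 : ℕ) + ((g0 + l) % 3 : ℕ) := by
      exact_mod_cast (Nat.div_add_mod (g0 + l) 3).symm
    rw [hc]
    push_cast at h1 ⊢
    linear_combination (-e) * h1
  obtain ⟨P, hP⟩ : ∃ P : (ℕ → ℤ → ℤ) → ℕ → ℤ, P = fun C l =>
    C ((g0 + l) % 3) (M - l) + w * l + e * ((g0 + l) / 3 : ℕ) := ⟨_, rfl⟩
  have hP' : ∀ (C : ℕ → ℤ → ℤ) (l q g : ℕ), g < 3 → g0 + l = 3 * q + g →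
      P C l = C g (M - l) + w * l + e * q := by
    intro C l q g h1 h2
    rw [hP]
    have e1 : (g0 + l) % 3 = g := by omega
    have e2 : (g0 + l) / 3 = q := by omega
    simp only [e1, e2]
  obtain ⟨σ, hσ⟩ : ∃ σ : ℕ → ℕ, σ = fun l => if (g0 + l) % 3 = 2 then l + 1 else
    if (g0 + l) % 3 = 0 ∧ 1 ≤ l then l - 1 else l := ⟨_, rfl⟩
  refine ⟨x, P A, P B, P (sw e w M B), σ, ?_, ?_, ?_, ?_, ?_, ?_⟩
  · intro l l' hll
    rw [hσ] at hll
    simp only at hll
    split_ifs at hll <;> omega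
  · apply monotone_nat_of_le_succ
    intro l
    obtain ⟨q, g, h1, h2, -⟩ := key l
    rw [hP' A l q g h1 h2]
    interval_cases g
    · rw [hP' A (l + 1) q 1 (by norm_num) (by omega)]
      have := a0 (M - l) (by omega)
      have e1 : M - ((l + 1 : ℕ) : ℤ) = M - l - 1 := by push_cast; ring
      rw [e1]
      push_cast
      linarith
    · rw [hP' A (l + 1) q 2 (by norm_num) (by omega)]
      have := a1 (M - l) (by omega)
      have e1 : M - ((l + 1 : ℕ) : ℤ) = M - l - 1 := by push_cast; ring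
      rw [e1]
      push_cast
      linarith
    · rw [hP' A (l + 1) (q + 1) 0 (by norm_num) (by omega)]
      have := a2 (M - l) (by omega)
      have e1 : M - ((l + 1 : ℕ) : ℤ) = M - l - 1 := by push_cast; ring
      rw [e1]
      push_cast
      linarith
  · apply antitone_nat_of_succ_le
    intro l
    obtain ⟨q, g, h1, h2, -⟩ := key l
    rw [hP' _ l q g h1 h2]
    have e1 : M - ((l + 1 : ℕ) : ℤ) = M - l - 1 := by push_cast; ring
    interval_cases g
    · rw [hP' _ (l + 1) q 1 (by norm_num) (by omega), e1]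
      rcases Nat.eq_zero_or_pos l with hl | hl
      · subst hl
        unfold sw
        simp
        linarith [c2']
      · unfold sw
        rw [if_neg (by norm_num), if_neg (by norm_num), if_pos rfl, if_pos (by omega)]
        have := c2 (M - l) (by omega)
        push_cast
        linarith
    · rw [hP' _ (l + 1) q 2 (by norm_num) (by omega), e1]
      unfold sw
      rw [if_neg (by norm_num), if_pos rfl, if_neg (by norm_num), if_neg (by norm_num)]
      have := c3 (M - l) (by omega)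
      have e2 : M - (l : ℤ) - 1 - 1 = M - l - 2 := by ring
      rw [e2]
      push_cast
      linarith
    · rw [hP' _ (l + 1) (q + 1) 0 (by norm_num) (by omega), e1]
      unfold sw
      rw [if_pos rfl, if_pos (by omega), if_neg (by norm_num), if_pos rfl]
      have := c1 (M - l) (by omega)
      have e2 : M - (l : ℤ) - 1 + 1 = M - l := by ring
      rw [e2]
      push_cast
      linarith
  · intro l
    obtain ⟨q, g, h1, h2, -⟩ := key l
    rw [hP' B l q g h1 h2, hσ]
    simp only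
    interval_cases g
    · rw [if_neg (by omega)]
      rcases Nat.eq_zero_or_pos l with hl | hl
      · subst hl
        rw [if_neg (by omega), hP' _ 0 q 0 (by norm_num) (by omega)]
        unfold sw
        simp
      · rw [if_pos (by omega), hP' _ (l - 1) (q - 1) 2 (by norm_num) (by omega)]
        unfold sw
        rw [if_neg (by norm_num), if_pos rfl]
        have e1 : M - ((l - 1 : ℕ) : ℤ) - 1 = M - l := by
          rw [Nat.cast_sub hl]; push_cast; ring
        have e2 : ((q - 1 : ℕ) : ℤ) = q - 1 := by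
          rw [Nat.cast_sub (by omega)]; push_cast; ring
        rw [e1, e2, Nat.cast_sub hl]
        push_cast
        linarith
    · rw [if_neg (by omega), if_neg (by omega), hP' _ l q 1 (by norm_num) (by omega)]
      unfold sw
      simp
    · rw [if_pos (by omega), hP' _ (l + 1) (q + 1) 0 (by norm_num) (by omega)]
      unfold sw
      rw [if_pos rfl, if_pos (by push_cast; omega)]
      have e1 : M - ((l + 1 : ℕ) : ℤ) + 1 = M - l := by push_cast; ring
      rw [e1]
      push_cast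
      linarith
  · intro l hl
    obtain ⟨q, g, h1, h2, h3⟩ := key l
    obtain ⟨-, y, g', h4, h5, h6, h7⟩ := hl
    simp only at h5 h6 h7
    rw [h3] at h5
    have h8 : (g' : ℤ) = g := by
      rcases he with rfl | rfl <;> omega
    have h9 : g' = g := by exact_mod_cast h8
    subst h9
    have h10 : y = x - w * l - e * q := by linarith
    rw [h10] at h6 h7
    rw [hP' A l q g' h1 h2, hP' B l q g' h1 h2]
    constructor <;> linarith
  · intro l h4 h5
    obtain ⟨q, g, h1, h2, h3⟩ := key l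
    rw [hP' _ l q g h1 h2] at h4 h5
    refine ⟨by simp, x - w * l - e * q, g, h1, h3, ?_, ?_⟩
    · simp only; linarith
    · simp only; linarith

end Pool.Agent.H59.RR
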