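import Pool.Graph.R_seed8.TH183.QI.Trans

set_option autoImplicit false

/-! Good germs: emptiness for some germ implies emptiness for a germ `(x + u, y + g (u) + v)`. -/

namespace Pool.Agent.H59.RR

open Finset Pool.Agent.TH176.Nag Pool.Agent.TH183.QN Pool.Agent.TH183.QI

section pert
variable {K : Type} [Field K]

/-- the germ `(X (1 + s Y), Y)` in the variables of the germ `(X, Y)` -/
noncomputable def prt (N0 : ℕ) (f : (ℤ × ℤ) →₀ LaurentSeries K) : (ℤ × ℤ) →₀ LaurentSeries K :=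
  ∑ m ∈ f.support, ∑ j ∈ range ((m.1 + N0).toNat + 1),
    Finsupp.single (m.1, m.2 + (j : ℤ)) (tv K ^ j * ((m.1 + N0).toNat.choose j : LaurentSeries K) * f m)

theorem ev_prt {N0 : ℕ} {f : (ℤ × ℤ) →₀ LaurentSeries K} (hN0 : ∀ m ∈ f.support, 0 ≤ m.1 + N0)
    (X Z U : (PS (LaurentSeries K))ˣ) (hU : (U : PS (LaurentSeries K)) = 1 + tv K • (Z : PS (LaurentSeries K))) :
    ev X Z (prt N0 f) = ((U ^ N0 : (PS (LaurentSeries K))ˣ) : PS (LaurentSeries K)) * ev (X * U) Z f := by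
  unfold prt
  rw [ev_sum]
  conv_rhs => rw [ev, Finsupp.sum, mul_sum]
  apply sum_congr rfl
  intro m hm
  rw [ev_sum]
  simp only [ev_single]
  obtain ⟨b, hb⟩ := Int.eq_ofNat_of_zero_le (hN0 m hm)
  have hb' : (m.1 + (N0 : ℤ)).toNat = b := by omega
  have hm2 : m.1 = (b : ℤ) - N0 := by omega
  rw [hb', mul_smul_comm, ← Units.val_mul]
  have e1 : U ^ N0 * ((X * U) ^ m.1 * Z ^ m.2) = X ^ m.1 * Z ^ m.2 * U ^ b := by
    have : U ^ b = U ^ N0 * U ^ m.1 := by
      rw [← zpow_natCast, ← zpow_natCast, ← zpow_add, hm2]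
      congr 1
      ring
    rw [this, mul_zpow]
    simp only [mul_comm, mul_left_comm, mul_assoc]
  rw [e1, Units.val_mul, Units.val_pow_eq_pow_val, hU, add_comm (1 : PS (LaurentSeries K)), add_pow,
    mul_sum, smul_sum]
  apply sum_congr rfl
  intro j _
  have e3 : X ^ m.1 * Z ^ (m.2 + (j : ℤ)) = X ^ m.1 * Z ^ m.2 * Z ^ j := by
    rw [zpow_add, zpow_natCast, mul_assoc]
  rw [e3, Units.val_mul (X ^ m.1 * Z ^ m.2), Units.val_pow_eq_pow_val, one_pow, mul_one, smul_pow]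
  have e2 : ((b.choose j : ℕ) : PS (LaurentSeries K)) =
      ((b.choose j : ℕ) : LaurentSeries K) • (1 : PS (LaurentSeries K)) := by
    rw [Nat.cast_smul_eq_nsmul, nsmul_eq_mul, mul_one]
  rw [e2]
  simp only [mul_smul_comm, smul_smul, mul_one]
  congr 1
  ring

theorem prt_coeff {N0 : ℕ} {f : (ℤ × ℤ) →₀ LaurentSeries K} {n : ℤ}
    (hlow : ∀ m, ∀ k < n, (f m).coeff k = 0) :
    (prt N0 f).mapRange (fun u => u.coeff n) rfl = f.mapRange (fun u => u.coeff n) rfl := by
  classical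
  ext p
  rw [Finsupp.mapRange_apply, Finsupp.mapRange_apply]
  unfold prt
  rw [Finsupp.finsetSum_apply, HahnSeries.coeff_sum]
  have key : ∀ m ∈ f.support, ((∑ j ∈ range ((m.1 + N0).toNat + 1),
      Finsupp.single (m.1, m.2 + (j : ℤ)) (tv K ^ j * ((m.1 + N0).toNat.choose j : LaurentSeries K) * f m) :
        (ℤ × ℤ) →₀ LaurentSeries K) p).coeff n = if m = p then (f p).coeff n else 0 := by
    intro m _
    rw [Finsupp.finsetSum_apply, HahnSeries.coeff_sum, Finset.sum_eq_single 0]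
    · rw [Finsupp.single_apply]
      simp only [Nat.cast_zero, add_zero, pow_zero, Nat.choose_zero_right, Nat.cast_one, one_mul]
      by_cases h : m = p
      · subst h
        simp
      · rw [if_neg (fun h' => h (by rw [← h'])), if_neg h]
        simp
    · intro j _ hj
      rw [Finsupp.single_apply]
      split_ifs
      · have e1 : tv K ^ j * ((m.1 + (N0 : ℤ)).toNat.choose j : LaurentSeries K) * f m =
            tv K ^ j * (cst ((m.1 + (N0 : ℤ)).toNat.choose j : K) * f m) := by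
          rw [mul_assoc]
          congr 2
        have e2 : tv K ^ j = HahnSeries.single (j : ℤ) (1 : K) := by
          rw [tv, HahnSeries.single_pow, one_pow]
          simp
        rw [e1, e2]
        have e3 := HahnSeries.coeff_single_mul (r := (1 : K)) (x := cst ((m.1 + (N0 : ℤ)).toNat.choose j : K) * f m)
          (a := n) (b := (j : ℤ))
        rw [e3, one_mul, coeff_cst_mul, hlow m _ (by have := Nat.pos_of_ne_zero hj; omega), mul_zero]
      · simp
    · intro h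
      exact absurd (mem_range.2 (Nat.succ_pos _)) h
  rw [sum_congr rfl key, Finset.sum_ite_eq' f.support p]
  split_ifs with h
  · rfl
  · rw [Finsupp.notMem_support_iff.1 h]; simp

end pert

/-- emptiness for a germ with `d X ≠ 0` -/
theorem EmpF.ldx {n : ℕ} {t c : ℝ} (ht : 0 ≤ t) {S : Set (ℤ × ℤ)}
    (h : EmpF n (fun _ : Unit => t) (fun _ => c) S) :
    ∃ (K : Type) (_ : Field K) (_ : CharZero K) (X Y : (PS K)ˣ) (φ : Fin n → ℤ × ℤ → K), ld X ≠ 0 ∧
      ∀ f : (ℤ × ℤ) →₀ K, (↑f.support : Set (ℤ × ℤ)) ⊆ S →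
        Wt t c (ev X Y f) → (∀ j, pair (φ j) f = 0) → f = 0 := by
  classical
  obtain ⟨K, _, _, X, Y, φ, hXY, hf⟩ := h
  by_cases h0 : ld (X ()) = 0
  swap
  · exact ⟨K, _, inferInstance, X (), Y (), φ, h0, fun f h1 h2 h3 => hf f h1 (fun _ => h2) h3⟩
  have hY : ld (Y ()) ≠ 0 := (hXY ()).resolve_left (not_not.2 h0)
  refine ⟨LaurentSeries K, inferInstance, inferInstance,
    mu (HahnSeries.C : K →+* LaurentSeries K) (X ()) * uni (Y ()),
    mu (HahnSeries.C : K →+* LaurentSeries K) (Y ()), fun j m => HahnSeries.C (φ j m), ?_, ?_⟩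
  · rw [ld_mul, ld_mu, h0, map_zero, zero_add]
    rw [← dl_ne_iff] at hY ⊢
    rw [uni_val]
    unfold dl
    rw [map_add, MvPowerSeries.coeff_smul]
    have h1 := dl_mu (HahnSeries.C : K →+* LaurentSeries K) (Y ())
    unfold dl at h1
    have h2 := dl_one (K := LaurentSeries K)
    unfold dl at h2
    rw [h1, h2, zero_add]
    exact (order_cst hY).1
  intro f hfS hfL hfp
  by_contra hne
  obtain ⟨N0, hN0⟩ : ∃ N0 : ℕ, ∀ m ∈ f.support, 0 ≤ m.1 + (N0 : ℤ) := by
    refine ⟨∑ m ∈ f.support, m.1.natAbs, fun m hm => ?_⟩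
    have : m.1.natAbs ≤ ∑ m ∈ f.support, m.1.natAbs :=
      single_le_sum (f := fun m : ℤ × ℤ => m.1.natAbs) (fun _ _ => Nat.zero_le _) hm
    omega
  obtain ⟨n', hn1, hn2, -⟩ := exists_lead hne
  apply hn1
  apply hf
  · intro m hm
    apply hfS
    exact Finsupp.support_mapRange hm
  · rintro ⟨⟩
    rw [← prt_coeff (N0 := N0) hn2]
    apply Wt_coeff
    rw [ev_prt hN0 _ _ (uni (Y ())) (uni_val _)]
    exact hfL.mul_left ht _
  · intro j
    have h1 := pair_mapRange (HahnSeries.C : K →+* LaurentSeries K) (cf n') (fun g c => by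
      show (g * cst c).coeff n' = g.coeff n' * c
      rw [coeff_mul_cst, mul_comm]) (φ j) f
    have h2 : f.mapRange (cf n') (map_zero _) = f.mapRange (fun u => u.coeff n') rfl := rfl
    rw [← h2, h1, hfp j, map_zero]

section graph
variable {K : Type} [Field K]

/-- the coordinate along the curve -/
noncomputable def gX (x : K) : PS K := MvPowerSeries.C (σ := Fin 2) x + MvPowerSeries.X 0

/-- the coordinate `y` of the germ of the graph of `y + g` -/
noncomputable def gY (y : K) (g : Polynomial K) : PS K :=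
  MvPowerSeries.C (σ := Fin 2) y + Polynomial.aeval (MvPowerSeries.X 0 : PS K) g + MvPowerSeries.X 1

/-- **from a germ to the germ of a graph** -/
theorem exists_good {t c : ℝ} (ht : 1 ≤ t) {X Y : (PS K)ˣ} (hX : ld X ≠ 0) :
    ∃ (x y : K) (g : Polynomial K), x ≠ 0 ∧ y ≠ 0 ∧ g.coeff 0 = 0 ∧ ∀ (X1 Y1 : (PS K)ˣ),
      (X1 : PS K) = gX x → (Y1 : PS K) = gY y g →
      ∀ f : (ℤ × ℤ) →₀ K, Wt t c (ev X1 Y1 f) → Wt t c (ev X Y f) := by
  classical
  obtain ⟨x, hx⟩ : ∃ x, x = cc (X : PS K) := ⟨_, rfl⟩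
  obtain ⟨y, hy⟩ : ∃ y, y = cc (Y : PS K) := ⟨_, rfl⟩
  obtain ⟨A, hA⟩ : ∃ A, A = (X : PS K) - MvPowerSeries.C (σ := Fin 2) x := ⟨_, rfl⟩
  obtain ⟨B, hB⟩ : ∃ B, B = (Y : PS K) - MvPowerSeries.C (σ := Fin 2) y := ⟨_, rfl⟩
  have hA0 : cc A = 0 := by
    rw [hA, hx]
    unfold cc
    rw [map_sub, MvPowerSeries.constantCoeff_C, sub_self]
  have hB0 : cc B = 0 := by
    rw [hB, hy]
    unfold cc
    rw [map_sub, MvPowerSeries.constantCoeff_C, sub_self]
  have hA1 : dl A ≠ 0 := by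
    have h1 : dl A = dl (X : PS K) := by
      rw [hA, sub_eq_add_neg, ← map_neg, dl_add, dl_C, add_zero]
    rw [h1]
    exact (dl_ne_iff X).2 hX
  obtain ⟨g, hg0, hg⟩ := exists_graph hA0 hA1 hB0 ⌈t⌉₊
  obtain ⟨B', hB'⟩ : ∃ B', B' = B - Polynomial.aeval A g := ⟨_, rfl⟩
  have hB'W : Wt t t B' := by
    rw [hB']
    exact Wt_of_res (by linarith) (Nat.le_ceil _) hg
  have hAW : Wt t 1 A := Wt_one ht hA0
  have hB'0 : cc B' = 0 := by
    have := hB'W 0 (by simp; linarith)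
    rwa [MvPowerSeries.coeff_zero_eq_constantCoeff_apply] at this
  have hs : MvPowerSeries.HasSubst (![A, B'] : Fin 2 → PS K) :=
    MvPowerSeries.hasSubst_of_constantCoeff_zero (by
      intro k
      fin_cases k
      · exact hA0
      · exact hB'0)
  obtain ⟨Φ, hΦ⟩ : ∃ Φ : PS K →ₐ[K] PS K, Φ = MvPowerSeries.substAlgHom hs := ⟨_, rfl⟩
  have hΦ0 : Φ (MvPowerSeries.X 0) = A := by rw [hΦ, MvPowerSeries.substAlgHom_X]; rfl
  have hΦ1 : Φ (MvPowerSeries.X 1) = B' := by rw [hΦ, MvPowerSeries.substAlgHom_X]; rfl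
  have hΦC : ∀ z : K, Φ (MvPowerSeries.C (σ := Fin 2) z) = MvPowerSeries.C (σ := Fin 2) z := by
    intro z
    exact Φ.commutes z
  have hΦW : ∀ b : PS K, Wt t c b → Wt t c (Φ b) := by
    intro b hb e he
    rw [hΦ, MvPowerSeries.substAlgHom_apply, MvPowerSeries.coeff_subst hs]
    apply finsum_eq_zero_of_forall_eq_zero
    intro d
    rcases lt_or_ge ((d 0 : ℝ) + t * (d 1 : ℝ)) c with h | h
    · rw [hb d h, zero_smul]
    · have h1 : Wt t (d 0 + t * d 1) (d.prod fun s e => (![A, B'] : Fin 2 → PS K) s ^ e) := by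
        rw [Finsupp.prod_fintype _ _ (by simp), Fin.prod_univ_two]
        have h2 := (Wt.pow (by linarith) hAW (d 0)).mul (Wt.pow (by linarith) hB'W (d 1))
        refine h2.mono ?_
        linarith
      rw [h1 e (lt_of_lt_of_le he h), smul_zero]
  refine ⟨x, y, g, ?_, ?_, hg0, ?_⟩
  · rw [hx]; exact cc_unit_ne_zero X
  · rw [hy]; exact cc_unit_ne_zero Y
  intro X1 Y1 hX1 hY1 f hf
  have e1 : Units.map (Φ : PS K →* PS K) X1 = X := by
    ext1
    rw [Units.coe_map, hX1]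
    show Φ (gX x) = X
    unfold gX
    rw [map_add, hΦC, hΦ0, hA]
    ring
  have e2 : Units.map (Φ : PS K →* PS K) Y1 = Y := by
    ext1
    rw [Units.coe_map, hY1]
    show Φ (gY y g) = Y
    unfold gY
    rw [map_add, map_add, hΦC, hΦ1, ← Polynomial.aeval_algHom_apply, hΦ0, hB', hB]
    ring
  have e3 : ev X Y f = Φ (ev X1 Y1 f) := by
    unfold ev Finsupp.sum
    rw [map_sum]
    refine sum_congr rfl fun m _ => ?_
    rw [map_smul, ← e1, ← e2]
    beta_reduce
    rw [← map_zpow, ← map_zpow, ← map_mul]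
    rfl
  rw [e3]
  exact hΦW _ hf

end graph

end Pool.Agent.H59.RR
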