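import Pool.Agent.H59.RR.Move
import Pool.Agent.H59.PF.Main

set_option autoImplicit false

/-! The induction over the rows. -/

namespace Pool.Agent.H59.RR

open Finset Pool.Agent.TH183.QC Pool.Agent.TH183.QS Pool.Agent.TH183.QI Pool.Agent.H59.PF

section
variable {e : ℕ} {K η : ℝ}

/-- the rows are not longer than expected -/
theorem cn_le (hη : η < 0) (hK : 9 < K) (i : ℤ) : cn e K η i ≤ rr 3 e * i := by
  have hκ : 0 < (K - 9) / K := div_pos (by linarith) (by linarith)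
  have key : ∀ (g g' : ℕ), g + g' = 2 →
      ⌊Rb e K η g i⌋ + ⌊Lb e K η g' i⌋ ≤ e * (2 * i + 1) + 9 * (3 * i + 1 - g) - 1 := by
    intro g g' hg
    have hgR : (g' : ℝ) = 2 - g := by
      have : (g : ℝ) + g' = 2 := by exact_mod_cast hg
      linarith
    have h1 := Int.floor_le (Rb e K η g i)
    have h2 := Int.floor_le (Lb e K η g' i)
    have h3 : Rb e K η g i + Lb e K η g' i =
        e * (2 * i + 1) + 9 * (3 * i + 1 - g) + η * (1 + (K - 9) / K) := by
      unfold Rb Lb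
      rw [hgR]
      ring
    have h4 : η * (1 + (K - 9) / K) < 0 := mul_neg_of_neg_of_pos hη (by linarith)
    have h5 : ((⌊Rb e K η g i⌋ + ⌊Lb e K η g' i⌋ : ℤ) : ℝ) <
        ((e * (2 * i + 1) + 9 * (3 * i + 1 - g) : ℤ) : ℝ) := by
      push_cast
      linarith
    have h6 := Int.cast_lt.1 h5
    omega
  have k0 := key 0 2 rfl
  have k1 := key 1 1 rfl
  have k2 := key 2 0 rfl
  unfold cn rr
  simp only [sum_range_succ, sum_range_zero]
  push_cast at k0 k1 k2 ⊢
  linarith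

/-- the total number of missing exponents -/
noncomputable def dd (e : ℕ) (K η : ℝ) (m : ℕ) : ℤ :=
  ∑ i ∈ range m, ((rr 3 e : ℤ) * (i + 1) - cn e K η (i + 1))

theorem dd_succ (m : ℕ) : dd e K η (m + 1) = dd e K η m + ((rr 3 e : ℤ) * (m + 1) - cn e K η (m + 1)) := by
  unfold dd
  rw [sum_range_succ]

theorem dd_nonneg (hη : η < 0) (hK : 9 < K) (m : ℕ) : 0 ≤ dd e K η m := by
  unfold dd
  refine sum_nonneg fun i _ => ?_
  have := cn_le (e := e) hη hK ((i : ℤ) + 1)
  linarith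

theorem k_facts (he : e = 1 ∨ e = 2) (hK : 9 < K) (hke : K * (K - 9) = 3 / 2 * e) :
    (1 : ℝ) ≤ e ∧ (e : ℝ) ≤ 2 ∧ (K - 9) * 3 ≤ e ∧ K - 9 < e / 2 ∧ (K - 9) * 6 ≤ e := by
  have heR : (1 : ℝ) ≤ e ∧ (e : ℝ) ≤ 2 := by rcases he with rfl | rfl <;> norm_num
  refine ⟨heR.1, heR.2, by nlinarith, by nlinarith, by nlinarith⟩

/-- **the row of the apex** -/
theorem tri_zero (heta : -(3 / 2) ≤ η) (hη : η < 0) (he : e = 1 ∨ e = 2) (hK : 9 < K)
    (hke : K * (K - 9) = 3 / 2 * e) {u : ℤ} (hu : 0 ≤ u) (hu' : u ≤ 10) (huE : u ≤ ⌊Rb e K η 0 0⌋)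
    {p : ℤ × ℤ} (hp : p ∈ Tri e 0 (Ad e K η) (Bd e K η u 0 0)) :
    p.2 = 0 ∧ ∃ x : ℤ, 1 ≤ x ∧ x ≤ ⌊Rb e K η 0 0⌋ - u ∧ p.1 = 3 * x := by
  obtain ⟨e1, e2, e3, e4, e6⟩ := k_facts he hK hke
  have hκ : 0 < K - 9 := by linarith
  obtain ⟨h0, x, g, hg, h1, h2, h3⟩ := hp
  obtain ⟨l, hl⟩ := Int.eq_ofNat_of_zero_le h0
  rw [hl] at h2 h3
  rw [zero_sub] at h2 h3
  have hgR : (g : ℝ) ≤ 2 := by
    have : g ≤ 2 := by omega
    exact_mod_cast this
  have hg0 : (0 : ℝ) ≤ g := Nat.cast_nonneg g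
  have hl0 : (0 : ℝ) ≤ l := Nat.cast_nonneg l
  have q1 : (K - 9) * η / K < 0 := div_neg_of_neg_of_pos (mul_neg_of_pos_of_neg hκ hη) (by linarith)
  -- the lower bounds
  have hx1 : 1 ≤ x := by
    have h4 : Lb e K η g (-(l : ℤ)) < e := by
      unfold Lb
      push_cast
      have g1 : 0 ≤ l * (e - (K - 9) * 3) := mul_nonneg hl0 (by linarith)
      nlinarith
    have h5 : ⌊Lb e K η g (-(l : ℤ))⌋ < e := Int.floor_lt.2 (by exact_mod_cast h4)
    unfold Ad at h2
    omega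
  have hl1 : l = 0 := by
    by_contra hcon
    have hl2 : (1 : ℝ) ≤ l := by exact_mod_cast Nat.one_le_iff_ne_zero.2 hcon
    have h4 : Rb e K η g (-(l : ℤ)) < -18 := by
      unfold Rb
      push_cast
      have g1 : K * (3 * l - 1) ≥ 9 * (3 * l - 1) := mul_le_mul_of_nonneg_right hK.le (by linarith)
      have g2 : 0 ≤ K * g := by positivity
      nlinarith
    have h5 : ⌊Rb e K η g (-(l : ℤ))⌋ < -18 := Int.floor_lt.2 (by exact_mod_cast h4)
    have h6 : -(l : ℤ) < 0 := by omega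
    unfold Bd at h3
    rw [if_pos h6] at h3
    split_ifs at h3 <;> omega
  subst hl1
  refine ⟨by rw [hl]; rfl, x, hx1, ?_, ?_⟩
  · interval_cases g
    · unfold Bd at h3
      simp at h3
      linarith
    · exfalso
      have h4 : Rb e K η 1 (-((0 : ℕ) : ℤ)) < 1 := by
        unfold Rb; push_cast; linarith
      have h5 : ⌊Rb e K η 1 (-((0 : ℕ) : ℤ))⌋ < 1 := Int.floor_lt.2 (by exact_mod_cast h4)
      unfold Bd at h3
      simp at h3 h5
      omega
    · exfalso
      have h4 : Rb e K η 2 0 + Rb e K η 0 0 < e := by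
        unfold Rb; push_cast; linarith
      have h5 : ⌊Rb e K η 2 0⌋ + ⌊Rb e K η 0 0⌋ < e := by
        have g1 := Int.floor_le (Rb e K η 2 0)
        have g2 := Int.floor_le (Rb e K η 0 0)
        have : ((⌊Rb e K η 2 0⌋ + ⌊Rb e K η 0 0⌋ : ℤ) : ℝ) < ((e : ℤ) : ℝ) := by
          push_cast
          linarith
        exact_mod_cast this
      have h6 : Lb e K η 2 0 < 1 := by
        unfold Lb; push_cast; linarith
      have h7 : ⌊Lb e K η 2 0⌋ < 1 := Int.floor_lt.2 (by exact_mod_cast h6)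
      unfold Bd at h3
      unfold Ad at h2
      simp at h2 h3
      omega
  · interval_cases g
    · rw [h1]; push_cast; ring
    · exfalso
      have h4 : Rb e K η 1 (-((0 : ℕ) : ℤ)) < 1 := by
        unfold Rb; push_cast; linarith
      have h5 : ⌊Rb e K η 1 (-((0 : ℕ) : ℤ))⌋ < 1 := Int.floor_lt.2 (by exact_mod_cast h4)
      unfold Bd at h3
      simp at h3 h5
      omega
    · exfalso
      have h4 : Rb e K η 2 0 + Rb e K η 0 0 < e := by
        unfold Rb; push_cast; linarith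
      have h5 : ⌊Rb e K η 2 0⌋ + ⌊Rb e K η 0 0⌋ < e := by
        have g1 := Int.floor_le (Rb e K η 2 0)
        have g2 := Int.floor_le (Rb e K η 0 0)
        have : ((⌊Rb e K η 2 0⌋ + ⌊Rb e K η 0 0⌋ : ℤ) : ℝ) < ((e : ℤ) : ℝ) := by
          push_cast
          linarith
        exact_mod_cast this
      have h6 : Lb e K η 2 0 < 1 := by
        unfold Lb; push_cast; linarith
      have h7 : ⌊Lb e K η 2 0⌋ < 1 := Int.floor_lt.2 (by exact_mod_cast h6)
      unfold Bd at h3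
      unfold Ad at h2
      simp at h2 h3
      omega

/-- **the induction over the rows** -/
theorem empA_tri (heta : -(3 / 2) ≤ η) (hη : η < 0) (he : e = 1 ∨ e = 2) (hK : 9 < K) (hK' : K < 10)
    (hke : K * (K - 9) = 3 / 2 * e) (hE : ⌊Rb e K η 0 0⌋ ≤ 10)
    (h1 : (17 : ℝ) + 3 * ⌊Rb e K η 0 0⌋ ≤ e + 5 * K) (h2 : (9 : ℝ) + 3 * ⌊Rb e K η 0 0⌋ ≤ e + 4 * K)
    (m : ℕ) : ∀ (u : ℤ) (n : ℕ), 0 ≤ u → u ≤ ⌊Rb e K η 0 0⌋ →
      ⌊Rb e K η 0 0⌋ - u - dd e K η m ≤ n →
      EmpA (esD (rr 3 e) m n) (Tri e m (Ad e K η) (Bd e K η u 0 m)) := by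
  classical
  obtain ⟨E, hEd⟩ : ∃ E, E = ⌊Rb e K η 0 0⌋ := ⟨_, rfl⟩
  rw [← hEd] at hE h1 h2 ⊢
  have hr : 1 ≤ rr 3 e := by unfold rr; omega
  induction m with
  | zero =>
    intro u n hu huE hn
    have hn' : E - u ≤ n := by
      have : dd e K η 0 = 0 := by unfold dd; simp
      rw [this] at hn
      linarith
    have h3 : EmpA (esD (rr 3 e) 0 (0 + ((range (E - u).toNat).image
        fun x : ℕ => (((3 * (x + 1) : ℤ), (0 : ℤ)) : ℤ × ℤ)).card)) (Tri e ((0 : ℕ) : ℤ) (Ad e K η) (Bd e K η u 0 ((0 : ℕ) : ℤ))) := by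
      refine esI_add (S := ∅) (EmpA_none fun p hp => hp) ?_
      intro p hp
      right
      obtain ⟨h4, x, h5, h6, h7⟩ := tri_zero heta hη he hK hke hu (by linarith) (by rw [← hEd]; exact huE) hp
      rw [← hEd] at h6
      rw [mem_coe, mem_image]
      refine ⟨(x - 1).toNat, ?_, ?_⟩
      · rw [mem_range]; omega
      · ext
        · simp only
          rw [h7]
          omega
        · exact h4.symm
    refine esI_le h3 ?_
    have h8 := card_image_le (s := range (E - u).toNat)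
      (f := fun x : ℕ => (((3 * (x + 1) : ℤ), (0 : ℤ)) : ℤ × ℤ))
    rw [card_range] at h8
    omega
  | succ m ih =>
    intro u n hu huE hn
    have h3 := cn_le (e := e) hη hK ((m : ℤ) + 1)
    have h4 := dd_nonneg (e := e) hη hK m
    rw [dd_succ] at hn
    obtain ⟨δ, hδ⟩ : ∃ δ : ℤ, δ = (rr 3 e : ℤ) * (m + 1) - cn e K η (m + 1) := ⟨_, rfl⟩
    rw [← hδ] at hn
    obtain ⟨p, hp⟩ : ∃ p : ℕ, (p : ℤ) = min δ (E - u) := ⟨(min δ (E - u)).toNat, by
      rw [Int.toNat_of_nonneg]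
      exact le_min (by linarith) (by linarith)⟩
    have hp1 : (p : ℤ) ≤ δ := by rw [hp]; exact min_le_left _ _
    have hp2 : u + p ≤ E := by
      have : (p : ℤ) ≤ E - u := by rw [hp]; exact min_le_right _ _
      linarith
    have hp2R : (u : ℝ) + p ≤ E := by exact_mod_cast hp2
    have e1 : (((m + 1 : ℕ)) : ℤ) = (m : ℤ) + 1 := by push_cast; ring
    rw [e1]
    refine empA_units he hK hK' hu p (by linarith) (by linarith) ?_
    refine empA_row (y0 := 0) hr ?_ ?_
    · intro A hA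
      have h5 := card_row heta he hK hK' hke (u := u + p) (p := p) (M := (m : ℤ) + 1) (by positivity)
        (by linarith) (by positivity) (by omega) hA
      have h6 : (A.card : ℤ) ≤ ((rr 3 e * (m + 1) : ℕ) : ℤ) := by
        push_cast
        linarith
      exact_mod_cast h6
    · have h7 := ih (u + p) n (by positivity) hp2 (by
        rcases le_total δ (E - u) with h | h
        · rw [min_eq_left h] at hp
          rw [hp]
          linarith
        · rw [min_eq_right h] at hp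
          rw [hp]
          have : (0 : ℤ) ≤ n := Nat.cast_nonneg n
          linarith)
      refine h7.comap 1 0 0 1 0 (-1) (by norm_num) ?_
      rintro ⟨c, l⟩ ⟨⟨h8, x, g, h9, h10, h11, h12⟩, h13⟩
      simp only at h8 h10 h11 h12 h13
      have e2 : (m : ℤ) - (0 * c + 1 * l + -1) = m + 1 - l := by ring
      refine ⟨by simp only; omega, x, g, h9, by simp only; rw [← h10]; ring, ?_, ?_⟩
      · simp only
        rw [e2]
        exact h11
      · simp only
        rw [e2]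
        refine h12.trans (le_of_eq ?_)
        unfold Bd
        rw [if_pos (show (m : ℤ) + 1 - l < m + 1 by omega)]
        split_ifs <;> simp

end

end Pool.Agent.H59.RR
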