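import Pool.Agent.H59.RR.Fold

set_option autoImplicit false

/-! The transfer of one exponent to the lowest row, and the induction over the rows. -/

namespace Pool.Agent.H59.RR

open Finset Pool.Agent.TH183.QC Pool.Agent.TH183.QS Pool.Agent.H59.PF

/-- the right boundaries -/
noncomputable def Rb (e : ℕ) (K η : ℝ) (g : ℕ) (i : ℤ) : ℝ := e * (i + 1 / 2) + K * (3 * i + 1 - g) + η

/-- the left boundaries -/
noncomputable def Lb (e : ℕ) (K η : ℝ) (g : ℕ) (i : ℤ) : ℝ :=
  e * (i + 1 / 2) - (K - 9) * (3 * i - 1 + g) + (K - 9) * η / K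

/-- the upper bounds after `u` transfers, `p` of them to the present lowest row -/
noncomputable def Bd (e : ℕ) (K η : ℝ) (u p M : ℤ) (g : ℕ) (i : ℤ) : ℤ :=
  ⌊Rb e K η g i⌋ + (if g = 0 then (if i < M then -u else -u + p) else if g = 2 then u else 0)

/-- the lower bounds -/
noncomputable def Ad (e : ℕ) (K η : ℝ) (g : ℕ) (i : ℤ) : ℤ := e - ⌊Lb e K η g i⌋

theorem fl_le {a b : ℝ} {n : ℤ} (h : a ≤ b + n) : ⌊a⌋ ≤ ⌊b⌋ + n := by
  rw [← Int.floor_add_intCast]
  exact Int.floor_le_floor h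

section
variable {e : ℕ} {K η : ℝ}

theorem Ad_steep (hK : 9 < K) (hK' : K < 10) {w : ℤ} (hw : 9 ≤ w) (i : ℤ) :
    Ad e K η 0 i ≤ Ad e K η 1 (i - 1) + w ∧ Ad e K η 1 i ≤ Ad e K η 2 (i - 1) + w ∧
      Ad e K η 2 i ≤ Ad e K η 0 (i - 1) + w + e := by
  have hwR : (9 : ℝ) ≤ w := by exact_mod_cast hw
  have he1 : (0 : ℝ) ≤ e := Nat.cast_nonneg e
  unfold Ad
  refine ⟨?_, ?_, ?_⟩
  · have := fl_le (a := Lb e K η 1 (i - 1)) (b := Lb e K η 0 i) (n := w) (by
      unfold Lb; push_cast; linarith)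
    linarith
  · have := fl_le (a := Lb e K η 2 (i - 1)) (b := Lb e K η 1 i) (n := w) (by
      unfold Lb; push_cast; linarith)
    linarith
  · have := fl_le (a := Lb e K η 0 (i - 1)) (b := Lb e K η 2 i) (n := w + e) (by
      unfold Lb; push_cast; linarith)
    linarith

/-- **the transfer of one exponent** -/
theorem empA_unit {W : ES} (he : e = 1 ∨ e = 2) (hK : 9 < K) (hK' : K < 10) {u p M : ℤ} (hu : 0 ≤ u)
    (hp : 0 ≤ p) (h1 : (20 : ℝ) + 3 * u ≤ e + 5 * K) (h2 : (12 : ℝ) + 3 * u ≤ e + 4 * K)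
    (h : EmpA W (Tri e M (Ad e K η) (Bd e K η (u + 1) (p + 1) M))) :
    EmpA W (Tri e M (Ad e K η) (Bd e K η u p M)) := by
  have heZ : (e : ℤ) = 1 ∨ (e : ℤ) = 2 := by
    rcases he with h | h
    · left; exact_mod_cast h
    · right; exact_mod_cast h
  have he1 : (0 : ℝ) ≤ e := Nat.cast_nonneg e
  have huR : (0 : ℝ) ≤ u := by exact_mod_cast hu
  -- the five comparisons of the right boundaries
  have k1 : ∀ i : ℤ, ⌊Rb e K η 2 i⌋ ≤ ⌊Rb e K η 0 (i - 1)⌋ + (10 + e : ℤ) := by
    intro i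
    refine fl_le ?_
    unfold Rb; push_cast; linarith
  have k2 : ∀ i : ℤ, ⌊Rb e K η 0 (i - 1)⌋ ≤ ⌊Rb e K η 2 i⌋ + (-9 - e : ℤ) := by
    intro i
    refine fl_le ?_
    unfold Rb; push_cast; linarith
  have k3 : ∀ i : ℤ, ⌊Rb e K η 1 (i - 1)⌋ ≤ ⌊Rb e K η 2 (i + 1)⌋ + (-20 - 3 * u - e : ℤ) := by
    intro i
    refine fl_le ?_
    unfold Rb; push_cast; linarith
  have k4 : ∀ i : ℤ, ⌊Rb e K η 0 (i - 2)⌋ ≤ ⌊Rb e K η 1 i⌋ + (-20 - 3 * u - e : ℤ) := by
    intro i
    refine fl_le ?_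
    unfold Rb; push_cast; linarith
  have k5 : ∀ i : ℤ, ⌊Rb e K η 1 (i - 1)⌋ ≤ ⌊Rb e K η 0 i⌋ + (-12 - 3 * u : ℤ) := by
    intro i
    refine fl_le ?_
    unfold Rb; push_cast; linarith
  have k6 : ∀ i : ℤ, ⌊Rb e K η 2 (i - 1)⌋ ≤ ⌊Rb e K η 1 i⌋ + (-12 - 3 * u : ℤ) := by
    intro i
    refine fl_le ?_
    unfold Rb; push_cast; linarith
  refine empA_swap (w := 10 + 2 * u) heZ (fun i _ => (Ad_steep hK hK' (by omega) i).1)
    (fun i _ => (Ad_steep hK hK' (by omega) i).2.1) (fun i _ => (Ad_steep hK hK' (by omega) i).2.2)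
    ?_ ?_ ?_ ?_ ?_
  · intro i hi
    have := k1 i
    unfold Bd
    simp only [if_true, if_pos (show i - 1 < M by omega)]
    norm_num
    linarith
  · intro i hi
    have := k3 i
    unfold Bd
    norm_num
    linarith
  · have := k5 M
    unfold Bd
    norm_num
    linarith
  · intro i hi
    have := k4 i
    unfold Bd
    simp only [if_true, if_pos (show i - 2 < M by omega)]
    norm_num
    linarith
  refine empA_swap (w := 11 + 2 * u) heZ (fun i _ => (Ad_steep hK hK' (by omega) i).1)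
    (fun i _ => (Ad_steep hK hK' (by omega) i).2.1) (fun i _ => (Ad_steep hK hK' (by omega) i).2.2)
    ?_ ?_ ?_ ?_ ?_
  · intro i hi
    have := k2 i
    unfold sw Bd
    simp only [if_true, if_pos (show i - 1 < M by omega)]
    norm_num
    linarith
  · intro i hi
    have := k5 i
    unfold sw Bd
    simp only [if_true, if_pos (show i + 1 - 1 < M by omega)]
    norm_num
    linarith
  · have := k5 M
    unfold sw Bd
    norm_num
    linarith
  · intro i hi
    have := k6 i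
    unfold sw Bd
    simp only [if_true, if_pos (show i - 2 < M by omega)]
    norm_num
    have e1 : i - 2 + 1 = i - 1 := by ring
    rw [e1]
    linarith
  refine h.mono (Tri_mono ?_)
  intro g hg i hi
  interval_cases g
  · unfold sw Bd
    by_cases h3 : i < M
    · simp only [if_true, if_pos h3]
      norm_num
      rw [if_pos h3]
      linarith
    · simp only [if_true, if_neg h3]
      linarith
  · unfold sw Bd
    norm_num
  · unfold sw Bd
    simp only [if_true, if_pos (show i - 1 < M by omega)]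
    norm_num
    linarith

/-- several transfers -/
theorem empA_units {W : ES} (he : e = 1 ∨ e = 2) (hK : 9 < K) (hK' : K < 10) {u M : ℤ} (hu : 0 ≤ u)
    (p : ℕ) (h1 : (17 : ℝ) + 3 * (u + p) ≤ e + 5 * K) (h2 : (9 : ℝ) + 3 * (u + p) ≤ e + 4 * K)
    (h : EmpA W (Tri e M (Ad e K η) (Bd e K η (u + p) p M))) :
    EmpA W (Tri e M (Ad e K η) (Bd e K η u 0 M)) := by
  induction p with
  | zero => simpa using h
  | succ p ih =>
    push_cast at h1 h2 h
    refine ih (by linarith) (by linarith) ?_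
    refine empA_unit he hK hK' (by positivity) (by positivity) (by push_cast; linarith)
      (by push_cast; linarith) ?_
    rw [add_assoc]
    exact h

/-- the number of exponents in a row -/
noncomputable def cn (e : ℕ) (K η : ℝ) (i : ℤ) : ℤ :=
  ∑ g ∈ range 3, (⌊Rb e K η g i⌋ + ⌊Lb e K η g i⌋ - e + 1)

/-- **a row is not too long** -/
theorem card_row (heta : -(3 / 2) ≤ η) (he : e = 1 ∨ e = 2) (hK : 9 < K) (hK' : K < 10)
    (hke : K * (K - 9) = 3 / 2 * e) {u p M : ℤ} (hu : 0 ≤ u) (hu' : u ≤ 10) (hp : 0 ≤ p) (hM : 1 ≤ M)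
    {A : Finset ℤ} (hA : ∀ a ∈ A, ((a, 0) : ℤ × ℤ) ∈ Tri e M (Ad e K η) (Bd e K η u p M)) :
    (A.card : ℤ) ≤ cn e K η M + p := by
  classical
  have h1 : A ⊆ (range 3).biUnion fun g => (Finset.Icc (Ad e K η g M) (Bd e K η u p M g M)).image
      fun x : ℤ => 3 * x - e * g := by
    intro a ha
    obtain ⟨-, x, g, h2, h3, h4, h5⟩ := hA a ha
    simp only [sub_zero] at h3 h4 h5
    rw [mem_biUnion]
    refine ⟨g, mem_range.2 h2, ?_⟩
    rw [mem_image]
    exact ⟨x, Finset.mem_Icc.2 ⟨h4, h5⟩, h3.symm⟩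
  have h2 := (card_le_card h1).trans card_biUnion_le
  have h3 : ∀ g ∈ range 3, (((Finset.Icc (Ad e K η g M) (Bd e K η u p M g M)).image
      fun x : ℤ => 3 * x - e * g).card : ℤ) ≤ Bd e K η u p M g M - Ad e K η g M + 1 := by
    intro g hg
    rw [mem_range] at hg
    have h4 := card_image_le (s := Finset.Icc (Ad e K η g M) (Bd e K η u p M g M))
      (f := fun x : ℤ => 3 * x - e * g)
    rw [Int.card_Icc] at h4
    have h5 : Ad e K η g M ≤ Bd e K η u p M g M + 1 := by
      have heR : (1 : ℝ) ≤ e ∧ (e : ℝ) ≤ 2 := by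
        rcases he with rfl | rfl <;> norm_num
      have hMR : (1 : ℝ) ≤ M := by exact_mod_cast hM
      have hgR : (g : ℝ) ≤ 2 := by
        have : g ≤ 2 := by omega
        exact_mod_cast this
      have hg0 : (0 : ℝ) ≤ g := Nat.cast_nonneg g
      have hκ : 0 < K - 9 := by linarith
      have hκ3 : (K - 9) * 3 ≤ e := by nlinarith
      have hL : (0 : ℝ) ≤ Lb e K η g M := by
        unfold Lb
        have g1 : (K - 9) * (3 * M - 1 + g) ≤ (K - 9) * (3 * M + 1) :=
          mul_le_mul_of_nonneg_left (by linarith) hκ.le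
        have g2 : (K - 9) * 3 * M ≤ e * M := mul_le_mul_of_nonneg_right hκ3 (by linarith)
        have g3 : -(K - 9) / 6 ≤ (K - 9) * η / K := by
          rw [le_div_iff₀ (by linarith)]
          nlinarith
        nlinarith
      have hL' : 0 ≤ ⌊Lb e K η g M⌋ := Int.floor_nonneg.2 hL
      have hR : (11 : ℝ) ≤ Rb e K η g M := by
        unfold Rb
        have g1 : K * (3 * M - 1) ≤ K * (3 * M + 1 - g) := mul_le_mul_of_nonneg_left (by linarith) (by linarith)
        have g2 : 9 * (3 * M - 1) ≤ K * (3 * M - 1) := mul_le_mul_of_nonneg_right hK.le (by linarith)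
        nlinarith
      have hR' : 11 ≤ ⌊Rb e K η g M⌋ := Int.le_floor.2 (by exact_mod_cast hR)
      unfold Ad Bd
      split_ifs <;> omega
    omega
  have h4 : (A.card : ℤ) ≤ ∑ g ∈ range 3, (Bd e K η u p M g M - Ad e K η g M + 1) := by
    refine le_trans ?_ (sum_le_sum h3)
    exact_mod_cast h2
  refine h4.trans (le_of_eq ?_)
  unfold cn Bd Ad
  simp only [sum_range_succ, sum_range_zero]
  norm_num
  ring

end

end Pool.Agent.H59.RR
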