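import Pool.Agent.H59.RR.Germ
import Pool.Agent.H59.PF.EsF

set_option autoImplicit false

/-! Removal of one row by a logarithmic derivative. -/

namespace Pool.Agent.H59.RR

open Finset Pool.Agent.TH176.Nag Pool.Agent.TH183.QN Pool.Agent.TH183.QI Pool.Agent.TH183.QC
open Pool.Agent.TH183.QS Pool.Agent.H59.PF

section
variable {K : Type} [Field K]

theorem isUnit_gX {x : K} (hx : x ≠ 0) : IsUnit (gX x) := by
  rw [MvPowerSeries.isUnit_iff_constantCoeff, gX, map_add, MvPowerSeries.constantCoeff_C,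
    MvPowerSeries.constantCoeff_X, add_zero]
  exact isUnit_iff_ne_zero.2 hx

theorem cc_aeval {g : Polynomial K} (hg : g.coeff 0 = 0) :
    MvPowerSeries.constantCoeff (Polynomial.aeval (MvPowerSeries.X 0 : PS K) g) = 0 := by
  rw [Polynomial.aeval_def, Polynomial.hom_eval₂, MvPowerSeries.constantCoeff_X,
    Polynomial.eval₂_at_zero]
  rw [hg, map_zero]

theorem isUnit_gY {y : K} (hy : y ≠ 0) {g : Polynomial K} (hg : g.coeff 0 = 0) : IsUnit (gY y g) := by
  rw [MvPowerSeries.isUnit_iff_constantCoeff, gY, map_add, map_add, MvPowerSeries.constantCoeff_C,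
    MvPowerSeries.constantCoeff_X, add_zero, cc_aeval hg, add_zero]
  exact isUnit_iff_ne_zero.2 hy

/-- the derivative in the transversal direction -/
noncomputable abbrev dv (K : Type) [Field K] : Derivation K (PS K) (PS K) :=
  MvPowerSeries.pderiv K (1 : Fin 2)

theorem dv_gX (x : K) : dv K (gX x) = 0 := by
  unfold gX
  rw [map_add, MvPowerSeries.pderiv_C, MvPowerSeries.pderiv_X_of_ne (by decide), add_zero]

theorem dv_gY (y : K) (g : Polynomial K) : dv K (gY y g) = 1 := by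
  unfold gY
  rw [map_add, map_add, MvPowerSeries.pderiv_C, MvPowerSeries.pderiv_X_self, zero_add,
    Derivation.map_aeval, MvPowerSeries.pderiv_X_of_ne (by decide), smul_zero, zero_add]

/-- the derivative lowers the weight by `t` -/
theorem dv_Wt {t c : ℝ} {b : PS K} (hb : Wt t c b) : Wt t (c - t) (dv K b) := by
  intro e he
  rw [MvPowerSeries.coeff_pderiv, hb _ ?_, zero_mul]
  simp only [Finsupp.coe_add, Pi.add_apply]
  rw [Finsupp.single_eq_of_ne (by decide), Finsupp.single_eq_same]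
  push_cast
  linarith

theorem dv_zpow {Y : (PS K)ˣ} (hY : dv K (Y : PS K) = 1) (b : ℤ) :
    dv K ((Y ^ b : (PS K)ˣ) : PS K) = (b : K) • ((Y ^ (b - 1) : (PS K)ˣ) : PS K) := by
  have hn : ∀ n : ℕ, dv K ((Y ^ n : (PS K)ˣ) : PS K) = (n : K) • ((Y ^ ((n : ℤ) - 1) : (PS K)ˣ) : PS K) := by
    intro n
    rcases Nat.eq_zero_or_pos n with h | h
    · subst h
      simp
    · rw [Units.val_pow_eq_pow_val, Derivation.leibniz_pow, hY, smul_eq_mul, mul_one]
      have e1 : ((n : ℤ) - 1) = ((n - 1 : ℕ) : ℤ) := by omega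
      rw [e1, zpow_natCast, Units.val_pow_eq_pow_val, Nat.cast_smul_eq_nsmul]
  obtain ⟨n, rfl | rfl⟩ := b.eq_nat_or_neg
  · rw [zpow_natCast, hn]
    push_cast
    rfl
  · have h1 : dv K (((Y ^ (-(n : ℤ)) : (PS K)ˣ) : PS K) * ((Y ^ n : (PS K)ˣ) : PS K)) = 0 := by
      rw [← Units.val_mul, zpow_neg, zpow_natCast, inv_mul_cancel, Units.val_one, Derivation.map_one_eq_zero]
    rw [Derivation.leibniz, hn, smul_eq_mul, smul_eq_mul] at h1
    have h2 : ((Y ^ (-(n : ℤ)) : (PS K)ˣ) : PS K) * ((Y ^ n : (PS K)ˣ) : PS K) = 1 := by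
      rw [← Units.val_mul, zpow_neg, zpow_natCast, inv_mul_cancel, Units.val_one]
    have h3 : ((Y ^ (-(n : ℤ)) : (PS K)ˣ) : PS K) * ((Y ^ (-(n : ℤ)) : (PS K)ˣ) : PS K) *
        ((Y ^ ((n : ℤ) - 1) : (PS K)ˣ) : PS K) = ((Y ^ (-(n : ℤ) - 1) : (PS K)ˣ) : PS K) := by
      rw [← Units.val_mul, ← Units.val_mul, ← zpow_add, ← zpow_add]
      congr 2
      ring
    have h4 := congrArg (fun z => ((Y ^ (-(n : ℤ)) : (PS K)ˣ) : PS K) * z) h1
    simp only [mul_zero, mul_add, mul_smul_comm] at h4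
    have h5 : ((Y ^ (-(n : ℤ)) : (PS K)ˣ) : PS K) * (((Y ^ n : (PS K)ˣ) : PS K) *
        dv K ((Y ^ (-(n : ℤ)) : (PS K)ˣ) : PS K)) = dv K ((Y ^ (-(n : ℤ)) : (PS K)ˣ) : PS K) := by
      rw [← mul_assoc, h2, one_mul]
    rw [h5, ← mul_assoc, h3] at h4
    rw [eq_neg_of_add_eq_zero_right h4]
    push_cast
    rw [neg_smul]

end

section
variable {K : Type} [Field K]

theorem res_gX (x : K) : res (gX x) = ((Polynomial.X + Polynomial.C x : Polynomial K) : PowerSeries K) := by
  classical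
  ext n
  rw [res_coeff, gX, map_add, MvPowerSeries.coeff_C, MvPowerSeries.coeff_X, Polynomial.coeff_coe,
    Polynomial.coeff_add, Polynomial.coeff_X, Polynomial.coeff_C]
  have h0 : (Finsupp.single (0 : Fin 2) n = 0) ↔ n = 0 := by
    rw [Finsupp.single_eq_zero]
  have h1 : (Finsupp.single (0 : Fin 2) n = Finsupp.single (0 : Fin 2) 1) ↔ 1 = n := by
    rw [(Finsupp.single_injective (0 : Fin 2)).eq_iff]
    exact eq_comm
  simp only [h0, h1]
  ring

/-- **one row**: few exponents in one row -/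
theorem row_zero [CharZero K] {t : ℝ} (ht : 0 ≤ t) {N : ℕ} {X Y : (PS K)ˣ} {x : K} (hx : x ≠ 0)
    (hX : (X : PS K) = gX x) {y0 : ℤ} {f : (ℤ × ℤ) →₀ K} (hf : ∀ m ∈ f.support, m.2 = y0)
    (hcard : f.support.card ≤ N) (hW : Wt t N (ev X Y f)) : f = 0 := by
  classical
  obtain ⟨N0, hN0⟩ : ∃ N0 : ℕ, ∀ m ∈ f.support, 0 ≤ m.1 + (N0 : ℤ) := by
    refine ⟨∑ m ∈ f.support, m.1.natAbs, fun m hm => ?_⟩
    have : m.1.natAbs ≤ ∑ m ∈ f.support, m.1.natAbs :=
      single_le_sum (f := fun m : ℤ × ℤ => m.1.natAbs) (fun _ _ => Nat.zero_le _) hm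
    omega
  -- the polynomial in one variable
  have h1 : ((X ^ (N0 : ℤ) * Y ^ (-y0) : (PS K)ˣ) : PS K) * ev X Y f =
      ∑ m ∈ f.support, f m • (gX x) ^ (m.1 + N0).toNat := by
    unfold ev Finsupp.sum
    rw [mul_sum]
    refine sum_congr rfl fun m hm => ?_
    rw [mul_smul_comm, ← Units.val_mul]
    congr 1
    have e1 : X ^ (N0 : ℤ) * Y ^ (-y0) * (X ^ m.1 * Y ^ m.2) = X ^ (m.1 + N0).toNat := by
      rw [hf m hm, mul_mul_mul_comm, ← zpow_add, ← zpow_add, neg_add_cancel, zpow_zero, mul_one,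
        ← zpow_natCast]
      congr 1
      have := hN0 m hm
      omega
    rw [e1, Units.val_pow_eq_pow_val, hX]
  have h2 : Wt t N (∑ m ∈ f.support, f m • (gX x) ^ (m.1 + N0).toNat) := by
    rw [← h1]
    exact hW.mul_left ht _
  have h3 : ∀ l < N, ∑ m ∈ f.support, f m * (x ^ ((m.1 + N0).toNat - l) * ((m.1 + N0).toNat.choose l : K)) = 0 := by
    intro l hl
    have h4 := h2 (Finsupp.single 0 l) (by
      rw [Finsupp.single_eq_same, Finsupp.single_eq_of_ne (by decide)]
      have : (l : ℝ) < N := by exact_mod_cast hl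
      simpa using this)
    rw [← res_coeff, map_sum, map_sum] at h4
    rw [← h4]
    refine sum_congr rfl fun m _ => ?_
    have e2 : res (f m • (gX x) ^ (m.1 + N0).toNat) =
        PowerSeries.C (f m) * (((Polynomial.X + Polynomial.C x) ^ (m.1 + N0).toNat : Polynomial K) : PowerSeries K) := by
      rw [MvPowerSeries.smul_eq_C_mul, map_mul, map_pow, res_gX, Polynomial.coe_pow]
      congr 1
      ext n
      rw [res_coeff, MvPowerSeries.coeff_C, PowerSeries.coeff_C]
      simp only [Finsupp.single_eq_zero]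
    rw [e2, PowerSeries.coeff_C_mul, Polynomial.coeff_coe, Polynomial.coeff_X_add_C_pow]
  obtain ⟨b, hb⟩ : ∃ b : ℤ × ℤ → ℕ, b = fun m : ℤ × ℤ => (m.1 + (N0 : ℤ)).toNat := ⟨_, rfl⟩
  have hinj : Set.InjOn b f.support := by
    intro m hm m' hm' h
    rw [hb] at h
    simp only at h
    have a1 := hN0 m hm
    have a2 := hN0 m' hm'
    have a3 := hf m hm
    have a4 := hf m' hm'
    ext
    · omega
    · omega
  obtain ⟨v, hv⟩ : ∃ v : ℕ → K, v = fun n : ℕ => f ((n : ℤ) - (N0 : ℤ), y0) * x ^ n := ⟨_, rfl⟩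
  have hvm : ∀ m ∈ f.support, v (b m) = f m * x ^ (b m) := by
    intro m hm
    rw [hv, hb]
    simp only
    congr 2
    ext
    · simp only
      have := hN0 m hm
      omega
    · simp only
      exact (hf m hm).symm
  have h5 := vand (F := K) (B := f.support.image b) (v := v) (by
    intro l hl
    rw [card_image_of_injOn hinj] at hl
    rw [sum_image hinj]
    have h6 := h3 l (by omega)
    have h7 : ∑ m ∈ f.support, ((b m).choose l : K) * v (b m) =
        x ^ l * ∑ m ∈ f.support, f m * (x ^ ((m.1 + N0).toNat - l) * ((m.1 + N0).toNat.choose l : K)) := by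
      rw [mul_sum]
      refine sum_congr rfl fun m hm => ?_
      rw [hvm m hm]
      have e3 : (m.1 + (N0 : ℤ)).toNat = b m := by rw [hb]
      rw [e3]
      rcases le_or_gt l (b m) with h | h
      · have e4 : x ^ (b m) = x ^ l * x ^ (b m - l) := by rw [← pow_add]; congr 1; omega
        rw [e4]; ring
      · rw [Nat.choose_eq_zero_of_lt h]; simp
    rw [h7, h6, mul_zero])
  ext m
  by_contra hm
  have hm' : m ∈ f.support := Finsupp.mem_support_iff.2 hm
  have h8 := h5 (b m) (mem_image_of_mem _ hm')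
  rw [hvm m hm'] at h8
  rcases mul_eq_zero.1 h8 with h | h
  · exact hm h
  · exact pow_ne_zero _ hx h

end

/-- **removal of one row** -/
theorem EmpF.row {r m n : ℕ} (hr : 1 ≤ r) {S : Set (ℤ × ℤ)} {y0 : ℤ}
    (hrow : ∀ A : Finset ℤ, (∀ a ∈ A, ((a, y0) : ℤ × ℤ) ∈ S) → A.card ≤ r * (m + 1))
    (h : EmpF n (fun _ : Unit => (r : ℝ)) (fun _ => (r * m : ℝ)) {p ∈ S | p.2 ≠ y0}) :
    EmpF n (fun _ : Unit => (r : ℝ)) (fun _ => (r * ((m + 1 : ℕ) : ℝ) : ℝ)) S := by
  classical
  have hrR : (1 : ℝ) ≤ r := by exact_mod_cast hr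
  obtain ⟨K, _, _, X, Y, φ, hX, hf⟩ := EmpF.ldx (by positivity) h
  obtain ⟨x, y, g, hx, hy, hg, hgood⟩ := exists_good (t := (r : ℝ)) (c := (r * m : ℝ)) hrR (Y := Y) hX
  obtain ⟨X1, hX1⟩ := isUnit_gX hx
  obtain ⟨Y1, hY1⟩ := isUnit_gY hy hg
  refine ⟨K, inferInstance, inferInstance, fun _ => X1, fun _ => Y1,
    fun j p => ((p.2 : K) - y0) * φ j p, fun _ => ?_, ?_⟩
  · left
    rw [← dl_ne_iff, hX1]
    unfold gX
    rw [dl_add, dl_C, zero_add]
    unfold dl
    rw [MvPowerSeries.coeff_X, if_pos rfl]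
    exact one_ne_zero
  intro f hfS hfL hfp
  have hfL := hfL ()
  simp only at hfL
  -- the logarithmic derivative
  obtain ⟨F, hF⟩ : ∃ F : (ℤ × ℤ) →₀ K, F = ∑ p ∈ f.support, Finsupp.single p (((p.2 : K) - y0) * f p) := ⟨_, rfl⟩
  have hFa : ∀ p, F p = ((p.2 : K) - y0) * f p := by
    intro p
    rw [hF, Finsupp.finsetSum_apply]
    simp only [Finsupp.single_apply]
    rw [Finset.sum_ite_eq' f.support p]
    split_ifs with h
    · rfl
    · rw [Finsupp.notMem_support_iff.1 h, mul_zero]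
  have hF0 : F = 0 := by
    apply hf
    · intro p hp
      have h1 : F p ≠ 0 := Finsupp.mem_support_iff.1 (mem_coe.1 hp)
      rw [hFa] at h1
      refine ⟨hfS (mem_coe.2 (Finsupp.mem_support_iff.2 (right_ne_zero_of_mul h1))), ?_⟩
      intro h2
      apply left_ne_zero_of_mul h1
      rw [h2, sub_self]
    · apply hgood X1 Y1 hX1 hY1
      -- `ev F = Y dv (ev f) - y0 ev f`
      have e1 : ev X1 Y1 F = (Y1 : PS K) * dv K (ev X1 Y1 f) - (y0 : K) • ev X1 Y1 f := by
        rw [hF, ev_sum]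
        simp only [ev_single]
        unfold ev Finsupp.sum
        rw [map_sum, mul_sum, smul_sum, ← sum_sub_distrib]
        refine sum_congr rfl fun p _ => ?_
        have e2 : dv K ((X1 ^ p.1 : (PS K)ˣ) : PS K) = 0 := by
          have h1 : dv K (X1 : PS K) = 0 := by rw [hX1]; exact dv_gX x
          obtain ⟨k, hk | hk⟩ := p.1.eq_nat_or_neg
          · rw [hk, zpow_natCast, Units.val_pow_eq_pow_val, Derivation.leibniz_pow, h1, smul_zero, smul_zero]
          · rw [hk, zpow_neg, zpow_natCast, ← inv_pow, Units.val_pow_eq_pow_val, Derivation.leibniz_pow,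
              MvPowerSeries.pderiv_inv, h1, mul_zero, smul_zero, smul_zero]
        have e3 : dv K (Y1 : PS K) = 1 := by rw [hY1]; exact dv_gY y g
        rw [Derivation.map_smul, Units.val_mul, Derivation.leibniz, e2, smul_zero, add_zero, dv_zpow e3, smul_eq_mul]
        have e4 : (Y1 : PS K) * ((Y1 ^ (p.2 - 1) : (PS K)ˣ) : PS K) = ((Y1 ^ p.2 : (PS K)ˣ) : PS K) := by
          rw [← Units.val_mul]
          congr 1
          rw [← zpow_one_add]
          congr 1
          ring
        simp only [MvPowerSeries.smul_eq_C_mul, map_sub, map_mul, Units.val_mul]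
        linear_combination (- MvPowerSeries.C (σ := Fin 2) (f p) * MvPowerSeries.C (σ := Fin 2) (p.2 : K) * ((X1 ^ p.1 : (PS K)ˣ) : PS K)) * e4
      rw [e1, sub_eq_add_neg, ← neg_smul]
      refine Wt.add ?_ ?_
      · refine Wt.mul_left (by positivity) _ ?_
        refine (dv_Wt hfL).mono ?_
        push_cast
        linarith
      · refine Wt.smul _ (hfL.mono ?_)
        push_cast
        nlinarith
    · intro j
      have h1 := hfp j
      have h2 : pair (φ j) F = pair (fun p => ((p.2 : K) - y0) * φ j p) f := by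
        rw [hF, pair_sum]
        simp only [pair_single]
        unfold pair Finsupp.sum
        refine sum_congr rfl fun p _ => ?_
        ring
      rw [h2]
      exact h1
  have hrow' : ∀ p ∈ f.support, p.2 = y0 := by
    intro p hp
    have h1 := hFa p
    rw [hF0] at h1
    rcases mul_eq_zero.1 h1.symm with h2 | h2
    · have h3 : ((p.2 : ℤ) : K) = ((y0 : ℤ) : K) := sub_eq_zero.1 h2
      exact_mod_cast h3
    · exact absurd h2 (Finsupp.mem_support_iff.1 hp)
  refine row_zero (t := (r : ℝ)) (N := r * (m + 1)) (by positivity) hx hX1 hrow' ?_ ?_ (Y := Y1)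
  · have h1 : f.support.card = (f.support.image Prod.fst).card := by
      rw [card_image_of_injOn]
      intro p hp p' hp' h
      ext
      · exact h
      · rw [hrow' p hp, hrow' p' hp']
    rw [h1]
    apply hrow
    intro a ha
    rw [mem_image] at ha
    obtain ⟨p, hp, rfl⟩ := ha
    rw [← hrow' p hp]
    exact hfS hp
  · push_cast at hfL ⊢
    exact hfL

/-- **removal of one row**, for the systems of predicates -/
theorem empA_row {r m n : ℕ} (hr : 1 ≤ r) {S : Set (ℤ × ℤ)} {y0 : ℤ}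
    (hrow : ∀ A : Finset ℤ, (∀ a ∈ A, ((a, y0) : ℤ × ℤ) ∈ S) → A.card ≤ r * (m + 1))
    (h : EmpA (esD r m n) {p ∈ S | p.2 ≠ y0}) : EmpA (esD r (m + 1) n) S := by
  intro T hT hf
  refine EmpF.row hr (y0 := y0) (fun A hA => hrow A fun a ha => hT (hA a ha)) ?_
  exact h _ (fun p hp => ⟨hT hp.1, hp.2⟩) (hf.subset fun p hp => hp.1)

end Pool.Agent.H59.RR
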